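import Pool.Agent.R235.BD.Riesz

set_option autoImplicit false

open MeasureTheory Filter Topology Laplacian InnerProductSpace Set
open scoped ContDiff

namespace Pool.Agent.R235.DS

open Pool.Agent.H314.CS Pool.Agent.R235.BD

lemma laplacian_scale {φ : ℂ → ℝ} (hφ : ContDiff ℝ 2 φ) (c : ℝ) (z : ℂ) :
    Δ (fun y : ℂ => φ (c • y)) z = c ^ 2 * Δ φ (c • z) := by
  have hφ' : ContDiff ℝ 2 (fun y : ℂ => φ (c • y)) := hφ.comp (contDiff_const_smul c)
  rw [LL.laplacian_eq_sum_fderiv hφ', LL.laplacian_eq_sum_fderiv hφ, Finset.mul_sum]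
  refine Finset.sum_congr rfl fun i _ => ?_
  set e := stdOrthonormalBasis ℝ ℂ i
  have h1 : (fun y : ℂ => fderiv ℝ (fun y : ℂ => φ (c • y)) y e) =
      fun y : ℂ => (fun w : ℂ => c * fderiv ℝ φ w e) (c • y) := by
    funext y
    have hd : HasFDerivAt φ (fderiv ℝ φ (c • y)) (c • y) :=
      (hφ.differentiable (by norm_num) _).hasFDerivAt
    have h2 : HasFDerivAt (fun y : ℂ => φ (c • y)) ((fderiv ℝ φ (c • y)).comp
      (c • ContinuousLinearMap.id ℝ ℂ)) y := hd.comp y ((hasFDerivAt_id y).const_smul c)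
    rw [h2.fderiv]
    simp
  rw [h1]
  have hψ : Differentiable ℝ (fun w : ℂ => c * fderiv ℝ φ w e) :=
    ((LL.contDiff_dir hφ e).differentiable (by norm_num)).const_mul c
  have hd : HasFDerivAt (fun w : ℂ => c * fderiv ℝ φ w e)
    (fderiv ℝ (fun w : ℂ => c * fderiv ℝ φ w e) (c • z)) (c • z) := (hψ _).hasFDerivAt
  have h2 : HasFDerivAt (fun y : ℂ => (fun w : ℂ => c * fderiv ℝ φ w e) (c • y))
      ((fderiv ℝ (fun w : ℂ => c * fderiv ℝ φ w e) (c • z)).comp
      (c • ContinuousLinearMap.id ℝ ℂ)) z := hd.comp z ((hasFDerivAt_id z).const_smul c)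
  rw [h2.fderiv]
  have h3 : fderiv ℝ (fun w : ℂ => c * fderiv ℝ φ w e) (c • z) =
      c • fderiv ℝ (fun w : ℂ => fderiv ℝ φ w e) (c • z) := by
    have := ((LL.contDiff_dir hφ e).differentiable (by norm_num)) (c • z)
    exact fderiv_const_mul this c
  rw [h3]
  simp
  ring

theorem area_bound {u : ℂ → ℝ} (hu : ContDiff ℝ 2 u) (h0 : ∀ z, 0 ≤ Δ u z) {C : ℝ}
    (hC : ∀ z, |u z| ≤ C * (1 + ‖z‖)) :
    ∃ C', 0 ≤ C' ∧ ∀ t : ℝ, 1 ≤ t → ∫ z in Metric.ball 0 t, Δ u z ≤ C' * t := by
  have hCnn : 0 ≤ C := by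
    have := (abs_nonneg _).trans (hC 0)
    simpa using this
  obtain ⟨φ, hφ, hsupp, hφ0, hφ1, hφK⟩ := exists_bump (K := Metric.closedBall (0 : ℂ) 1)
    (V := Metric.ball (0 : ℂ) 2) (isCompact_closedBall _ _) Metric.isOpen_ball
    (Metric.closedBall_subset_ball (by norm_num))
  have hφ2 : ContDiff ℝ 2 φ := cd2 hφ
  have hts : tsupport φ ⊆ Metric.closedBall 0 2 := by
    rw [tsupport, hsupp]; exact Metric.closure_ball_subset_closedBall
  have hcs : HasCompactSupport φ :=
    (isCompact_closedBall (0 : ℂ) 2).of_isClosed_subset isClosed_closure hts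
  have hLc := Pool.Agent.R235.BD.continuous_laplacian hφ2
  have hLs := Pool.Agent.R235.BD.hasCompactSupport_laplacian hφ2 hcs
  set M := ∫ z, |Δ φ z| with hM
  have hM0 : 0 ≤ M := integral_nonneg fun z => abs_nonneg _
  refine ⟨3 * C * M, by positivity, fun t ht => ?_⟩
  have htpos : (0 : ℝ) < t := by linarith
  have hφt : ContDiff ℝ 2 (fun y : ℂ => φ (t⁻¹ • y)) := hφ2.comp (contDiff_const_smul _)
  have hcst : HasCompactSupport (fun y : ℂ => φ (t⁻¹ • y)) := by
    refine HasCompactSupport.of_support_subset_isCompact (isCompact_closedBall (0 : ℂ) (2 * t)) ?_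
    intro z hz
    have h1 : t⁻¹ • z ∈ Function.support φ := hz
    rw [hsupp, mem_ball_zero_iff, norm_smul, Real.norm_eq_abs, abs_of_pos (by positivity)] at h1
    rw [mem_closedBall_zero_iff]
    rw [inv_mul_lt_iff₀ htpos] at h1
    linarith
  have hΔc := Pool.Agent.R235.BD.continuous_laplacian hu
  have i1 : Integrable fun z : ℂ => Δ u z * φ (t⁻¹ • z) :=
    (hΔc.mul hφt.continuous).integrable_of_hasCompactSupport hcst.mul_left
  have step1 : ∫ z in Metric.ball 0 t, Δ u z ≤ ∫ z, Δ u z * φ (t⁻¹ • z) := by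
    rw [← integral_indicator Metric.isOpen_ball.measurableSet]
    apply integral_mono_of_nonneg
    · refine Eventually.of_forall fun z => ?_
      exact indicator_nonneg (fun z _ => h0 z) z
    · exact i1
    · refine Eventually.of_forall fun z => ?_
      by_cases hz : z ∈ Metric.ball (0 : ℂ) t
      · simp only [indicator_of_mem hz]
        have : φ (t⁻¹ • z) = 1 := by
          apply hφK
          rw [mem_closedBall_zero_iff, norm_smul, Real.norm_eq_abs, abs_of_pos (by positivity)]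
          rw [mem_ball_zero_iff] at hz
          rw [inv_mul_le_iff₀ htpos]; linarith
        rw [this, mul_one]
      · simp only [indicator_of_notMem hz]
        exact mul_nonneg (h0 z) (hφ0 _)
  refine step1.trans ?_
  rw [← LL.green hu hφt hcst]
  have e1 : ∀ z : ℂ, u z * Δ (fun y : ℂ => φ (t⁻¹ • y)) z = t⁻¹ ^ 2 * (u z * Δ φ (t⁻¹ • z)) := by
    intro z; rw [laplacian_scale hφ2]; ring
  simp only [e1]
  rw [integral_const_mul]
  have hzt : ∀ z : ℂ, Δ φ (t⁻¹ • z) ≠ 0 → ‖z‖ ≤ 2 * t := by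
    intro z hz
    have h1 : t⁻¹ • z ∈ tsupport φ := by
      by_contra h
      exact hz (Pool.Agent.R235.BD.laplacian_zero_of_notMem hφ2 h)
    have h2 := hts h1
    rw [mem_closedBall_zero_iff, norm_smul, Real.norm_eq_abs, abs_of_pos (by positivity)] at h2
    rw [inv_mul_le_iff₀ htpos] at h2
    linarith
  have hcs2 : HasCompactSupport fun z : ℂ => Δ φ (t⁻¹ • z) := by
    refine HasCompactSupport.of_support_subset_isCompact (isCompact_closedBall (0 : ℂ) (2 * t)) ?_
    intro z hz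
    rw [mem_closedBall_zero_iff]
    exact hzt z hz
  have hg0 : Integrable fun z : ℂ => |Δ φ (t⁻¹ • z)| :=
    (Continuous.integrable_of_hasCompactSupport (f := fun z : ℂ => Δ φ (t⁻¹ • z))
      (by fun_prop) hcs2).abs
  have hg : Integrable fun z : ℂ => (3 * C * t) * |Δ φ (t⁻¹ • z)| := hg0.const_mul _
  have hf : Integrable fun z : ℂ => u z * Δ φ (t⁻¹ • z) :=
    Continuous.integrable_of_hasCompactSupport (hu.continuous.mul (by fun_prop)) hcs2.mul_left
  have step2 : ∫ z : ℂ, u z * Δ φ (t⁻¹ • z) ≤ ∫ z : ℂ, (3 * C * t) * |Δ φ (t⁻¹ • z)| := by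
    apply integral_mono hf hg
    intro z
    simp only
    by_cases hz : Δ φ (t⁻¹ • z) = 0
    · rw [hz]; simp
    · have h1 := hzt z hz
      have h2 := hC z
      have h3 : |u z| ≤ 3 * C * t := by
        refine h2.trans ?_
        nlinarith
      refine (le_abs_self _).trans ?_
      rw [abs_mul]
      exact mul_le_mul_of_nonneg_right h3 (abs_nonneg _)
  have e2 : ∫ z : ℂ, (3 * C * t) * |Δ φ (t⁻¹ • z)| = (3 * C * t) * (t ^ 2 * M) := by
    rw [integral_const_mul]
    congr 1
    have := Measure.integral_comp_inv_smul (volume : Measure ℂ) (fun z : ℂ => |Δ φ z|) t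
    rw [this, Complex.finrank_real_complex, abs_of_pos (by positivity), smul_eq_mul]
  rw [e2] at step2
  have h5 : t⁻¹ ^ 2 * (3 * C * t * (t ^ 2 * M)) = 3 * C * M * t := by
    field_simp
  rw [← h5]
  exact mul_le_mul_of_nonneg_left step2 (by positivity)

end Pool.Agent.R235.DS
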