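import Pool.Agent.R235.DS.Growth

set_option autoImplicit false

open MeasureTheory Filter Topology Set
open scoped ComplexConjugate ContDiff

namespace Pool.Agent.R235.DS

/-- polar coordinates on an annulus -/
lemma polar_annulus {a : ℂ → ℝ} (ha : Continuous a) {r : ℝ} :
    ∫ t in Ioo 1 r, ∫ θ in Ioo (-Real.pi) Real.pi, t * a (circleMap 0 t θ) =
      ∫ z in {z : ℂ | 1 < ‖z‖ ∧ ‖z‖ < r}, a z := by
  have hms : MeasurableSet {z : ℂ | 1 < ‖z‖ ∧ ‖z‖ < r} :=
    (measurableSet_lt measurable_const measurable_norm).inter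
      (measurableSet_lt measurable_norm measurable_const)
  rw [← integral_indicator hms, ← Complex.integral_comp_polarCoord_symm]
  have htgt : polarCoord.target = Ioi (0:ℝ) ×ˢ Ioo (-Real.pi) Real.pi := rfl
  have hsub : (Ioo 1 r ×ˢ Ioo (-Real.pi) Real.pi : Set (ℝ × ℝ)) ⊆ polarCoord.target := by
    rw [htgt]
    exact prod_mono (fun t ht => lt_trans one_pos ht.1) le_rfl
  have hcm : ∀ p : ℝ × ℝ, Complex.polarCoord.symm p = circleMap 0 p.1 p.2 := by
    intro p
    rw [Complex.polarCoord_symm_apply, circleMap, zero_add, Complex.exp_mul_I, Complex.ofReal_cos,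
      Complex.ofReal_sin]
  have hcont : Continuous fun p : ℝ × ℝ => p.1 * a (circleMap 0 p.1 p.2) := by
    have h1 : Continuous fun p : ℝ × ℝ => circleMap 0 p.1 p.2 := by
      unfold circleMap; fun_prop
    exact continuous_fst.mul (ha.comp h1)
  have hint : IntegrableOn (fun p : ℝ × ℝ => p.1 * a (circleMap 0 p.1 p.2))
      (Ioo 1 r ×ˢ Ioo (-Real.pi) Real.pi) := by
    refine (hcont.continuousOn.integrableOn_compact
      ((isCompact_Icc (a := (1:ℝ)) (b := r)).prod (isCompact_Icc (a := -Real.pi) (b := Real.pi)))).mono_set ?_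
    exact prod_mono Ioo_subset_Icc_self Ioo_subset_Icc_self
  have h1 : ∫ p in polarCoord.target, p.1 • ({z : ℂ | 1 < ‖z‖ ∧ ‖z‖ < r}.indicator a
      (Complex.polarCoord.symm p)) = ∫ p in Ioo 1 r ×ˢ Ioo (-Real.pi) Real.pi,
        p.1 * a (circleMap 0 p.1 p.2) := by
    rw [← integral_indicator (by rw [htgt]; exact measurableSet_Ioi.prod measurableSet_Ioo),
      ← integral_indicator (measurableSet_Ioo.prod measurableSet_Ioo)]
    refine integral_congr_ae (Eventually.of_forall fun p => ?_)
    by_cases hp : p ∈ Ioo 1 r ×ˢ Ioo (-Real.pi) Real.pi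
    · rw [indicator_of_mem hp, indicator_of_mem (hsub hp), hcm, indicator_of_mem]
      · rfl
      · have : |p.1| = p.1 := abs_of_pos (lt_trans one_pos hp.1.1)
        simp only [mem_setOf_eq, norm_circleMap_zero, this]
        exact hp.1
    · rw [indicator_of_notMem hp]
      by_cases hp2 : p ∈ polarCoord.target
      · rw [indicator_of_mem hp2, hcm, indicator_of_notMem, smul_zero]
        rw [htgt] at hp2
        have : |p.1| = p.1 := abs_of_pos hp2.1
        simp only [mem_setOf_eq, norm_circleMap_zero, this]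
        intro h
        exact hp ⟨h, hp2.2⟩
      · rw [indicator_of_notMem hp2]
  rw [h1]
  rw [Measure.volume_eq_prod, setIntegral_prod _ (by rw [Measure.volume_eq_prod] at hint; exact hint)]

lemma circ_shift {a : ℂ → ℝ} (t : ℝ) :
    ∫ θ in Ioo (-Real.pi) Real.pi, t * a (circleMap 0 t θ) =
      ∫ θ in (0:ℝ)..(2 * Real.pi), t * a (circleMap 0 t θ) := by
  have hp : Function.Periodic (fun θ : ℝ => t * a (circleMap 0 t θ)) (2 * Real.pi) := by
    intro θ
    simp only
    rw [periodic_circleMap 0 t θ]
  have h := hp.intervalIntegral_add_eq (-Real.pi) 0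
  rw [zero_add] at h
  rw [← h, show -Real.pi + 2 * Real.pi = Real.pi by ring,
    intervalIntegral.integral_of_le (by linarith [Real.pi_pos]), integral_Ioc_eq_integral_Ioo]

lemma polar_le {r : ℝ} : ∫ t in Ioo 1 r, ∫ θ in (0:ℝ)..(2 * Real.pi), t * aa (circleMap 0 t θ) ≤
    ∫ z in Metric.ball 0 r, aa z := by
  have h := polar_annulus continuous_aa (r := r)
  simp only [circ_shift] at h
  rw [h]
  apply setIntegral_mono_set
  · exact (continuous_aa.continuousOn.integrableOn_compact (isCompact_closedBall (0:ℂ) r)).mono_set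
      Metric.ball_subset_closedBall
  · exact Eventually.of_forall fun z => aa_nonneg z
  · refine Eventually.of_forall fun z hz => ?_
    have : ‖z‖ < r := hz.2
    exact mem_ball_zero_iff.mpr this

lemma len_small : ∃ K : ℝ, 0 ≤ K ∧ ∀ t : ℝ, 0 < t → t ≤ 1 → len fTwo t / t ≤ K := by
  obtain ⟨M, hM⟩ := (isCompact_closedBall (0:ℂ) 1).exists_bound_of_continuousOn
    continuous_aa.continuousOn
  have hM0 : 0 ≤ M := (norm_nonneg _).trans (hM 0 (by simp))
  refine ⟨2 * Real.sqrt M * (2 * Real.pi), by positivity, fun t ht ht1 => ?_⟩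
  rw [div_le_iff₀ ht]
  have h1 : ‖len fTwo t‖ ≤ (2 * t * Real.sqrt M) * |2 * Real.pi - 0| := by
    unfold len
    apply intervalIntegral.norm_integral_le_of_norm_le_const
    intro θ _
    rw [norm_norm]
    have h1 := norm_fderiv_le (circleMap 0 t θ) (circleMap 0 t θ * Complex.I)
    have h2 : ‖circleMap 0 t θ * Complex.I‖ = t := by
      rw [norm_mul, Complex.norm_I, mul_one]; simp [abs_of_pos ht]
    rw [h2] at h1
    refine h1.trans ?_
    have h3 : aa (circleMap 0 t θ) ≤ M := by
      have := hM (circleMap 0 t θ) (by rw [mem_closedBall_zero_iff, norm_circleMap_zero, abs_of_pos ht]; exact ht1)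
      exact (le_abs_self _).trans this
    gcongr
  rw [sub_zero, abs_of_pos (by positivity)] at h1
  refine ((le_abs_self _).trans h1).trans (le_of_eq ?_)
  ring

lemma len_int_le : ∃ K : ℝ, 0 ≤ K ∧ ∀ r s : ℝ, 1 ≤ r → 0 < s →
    ∫ t in (0:ℝ)..r, len fTwo t / t ≤ K + s * (∫ z in Metric.ball 0 r, aa z) +
      2 * Real.pi / s * Real.log r := by
  obtain ⟨K, hK0, hK⟩ := len_small
  refine ⟨K, hK0, fun r s hr hs => ?_⟩
  let I0 : ℝ → ℝ := fun t => ∫ θ in (0:ℝ)..(2 * Real.pi), (s * (t * aa (circleMap 0 t θ)) + 1 / (s * t))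
  let G : ℝ → ℝ := fun t => if t ≤ 1 then K else I0 t
  have hcj : Continuous fun t : ℝ => ∫ θ in (0:ℝ)..(2 * Real.pi), t * aa (circleMap 0 t θ) := by
    apply intervalIntegral.continuous_parametric_intervalIntegral_of_continuous'
    have h1 : Continuous fun p : ℝ × ℝ => circleMap 0 p.1 p.2 := by
      unfold circleMap; fun_prop
    exact continuous_fst.mul (continuous_aa.comp h1)
  have hI0 : ∀ t : ℝ, I0 t = s * (∫ θ in (0:ℝ)..(2 * Real.pi), t * aa (circleMap 0 t θ)) +
      2 * Real.pi / s * t⁻¹ := by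
    intro t
    have hct : Continuous fun θ : ℝ => t * aa (circleMap 0 t θ) :=
      continuous_const.mul (continuous_aa.comp (continuous_circleMap 0 t))
    have hc1 : Continuous fun θ : ℝ => s * (t * aa (circleMap 0 t θ)) := continuous_const.mul hct
    have hc2 : Continuous fun _ : ℝ => 1 / (s * t) := continuous_const
    simp only [I0]
    rw [intervalIntegral.integral_add (hc1.intervalIntegrable _ _)
      (hc2.intervalIntegrable _ _), intervalIntegral.integral_const_mul,
      intervalIntegral.integral_const]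
    simp only [sub_zero, smul_eq_mul]
    rw [one_div, mul_inv]
    ring
  have hint1 : IntegrableOn (fun t : ℝ => ∫ θ in (0:ℝ)..(2 * Real.pi), t * aa (circleMap 0 t θ)) (Ioc 1 r) :=
    (hcj.continuousOn.integrableOn_Icc).mono_set Ioc_subset_Icc_self
  have hint2 : IntegrableOn (fun t : ℝ => t⁻¹) (Ioc 1 r) := by
    have : ContinuousOn (fun t : ℝ => t⁻¹) (Icc 1 r) :=
      continuousOn_inv₀.mono fun t ht => (by have := ht.1; change t ≠ 0; linarith)
    exact this.integrableOn_Icc.mono_set Ioc_subset_Icc_self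
  have hintI : IntegrableOn I0 (Ioc 1 r) := by
    refine ((hint1.const_mul s).add (hint2.const_mul (2 * Real.pi / s))).congr
      (Eventually.of_forall fun t => ?_)
    simp only [Pi.add_apply]
    rw [hI0]
  have hsplit : Ioc (0:ℝ) r = Ioc 0 1 ∪ Ioc 1 r := (Ioc_union_Ioc_eq_Ioc zero_le_one hr).symm
  have hG1 : IntegrableOn G (Ioc 0 1) := by
    refine (integrableOn_const (C := K) measure_Ioc_lt_top.ne).congr_fun (fun t ht => ?_) measurableSet_Ioc
    simp only [G, if_pos ht.2]
  have hG2 : IntegrableOn G (Ioc 1 r) := by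
    refine hintI.congr_fun (fun t ht => ?_) measurableSet_Ioc
    simp only [G, if_neg (not_le.mpr ht.1)]
  have hG : IntegrableOn G (Ioc 0 r) := by rw [hsplit]; exact hG1.union hG2
  rw [intervalIntegral.integral_of_le (by linarith)]
  have step1 : ∫ t in Ioc 0 r, len fTwo t / t ≤ ∫ t in Ioc 0 r, G t := by
    apply integral_mono_of_nonneg
    · rw [EventuallyLE, ae_restrict_iff' measurableSet_Ioc]
      exact Eventually.of_forall fun t ht => div_nonneg (len_nonneg t) ht.1.le
    · exact hG
    · rw [EventuallyLE, ae_restrict_iff' measurableSet_Ioc]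
      refine Eventually.of_forall fun t ht => ?_
      by_cases h : t ≤ 1
      · simp only [G, if_pos h]; exact hK t ht.1 h
      · simp only [G, if_neg h]; exact len_le ht.1 hs
  refine step1.trans ?_
  have step2 : ∫ t in Ioc 0 r, G t = K + ∫ t in Ioc 1 r, I0 t := by
    rw [hsplit, setIntegral_union (by
      rw [Set.disjoint_left]; intro t h1 h2; exact absurd h1.2 (not_le.mpr h2.1)) measurableSet_Ioc hG1 hG2]
    congr 1
    · rw [setIntegral_congr_fun measurableSet_Ioc (g := fun _ => K) (fun t ht => by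
        simp only [G, if_pos ht.2]), setIntegral_const, Real.volume_real_Ioc_of_le zero_le_one]
      simp
    · exact setIntegral_congr_fun measurableSet_Ioc (fun t ht => by
        simp only [G, if_neg (not_le.mpr ht.1)])
  rw [step2]
  have step3 : ∫ t in Ioc 1 r, I0 t = s * (∫ t in Ioc 1 r, ∫ θ in (0:ℝ)..(2 * Real.pi),
      t * aa (circleMap 0 t θ)) + 2 * Real.pi / s * Real.log r := by
    simp only [hI0]
    rw [integral_add (hint1.const_mul s) (hint2.const_mul _), integral_const_mul, integral_const_mul]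
    congr 2
    rw [← intervalIntegral.integral_of_le hr, integral_inv_of_pos one_pos (by linarith), div_one]
  rw [step3, integral_Ioc_eq_integral_Ioo]
  have := mul_le_mul_of_nonneg_left (polar_le (r := r)) hs.le
  linarith

/-- the boundary terms are negligible -/
theorem boundary : Tendsto (fun r : ℝ => (∫ t in (0 : ℝ)..r, len fTwo t / t) / nev fTwo fs r)
    atTop (𝓝 0) := by
  obtain ⟨K, hK0, hK⟩ := len_int_le
  obtain ⟨C, hC0, hC⟩ := area_div_bound
  -- upper bound by a function tending to zero
  have hup : ∀ r : ℝ, 32 ≤ r → (∫ t in (0 : ℝ)..r, len fTwo t / t) / nev fTwo fs r ≤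
      4096 * (K / r + C * (Real.sqrt r)⁻¹ + 2 * Real.pi * (Real.log r / Real.sqrt r)) := by
    intro r hr
    have hr0 : 0 < r := by linarith
    have hs : 0 < Real.sqrt r := Real.sqrt_pos.mpr hr0
    have hss : Real.sqrt r * Real.sqrt r = r := Real.mul_self_sqrt hr0.le
    have h1 := hK r (Real.sqrt r)⁻¹ (by linarith) (by positivity)
    have h2 : ∫ z in Metric.ball (0:ℂ) r, aa z ≤ C * r := by
      have := hC r hr0
      rwa [div_le_iff₀ hr0] at this
    have h3 : r / 4096 ≤ nev fTwo fs r := by
      have := nev_fs_ge (r := r) (by linarith)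
      linarith
    have h4 : 0 < nev fTwo fs r := by
      have : 0 < r / 4096 := by positivity
      linarith
    rw [div_le_iff₀ h4]
    have h5 : (∫ t in (0 : ℝ)..r, len fTwo t / t) ≤
        (K / r + C * (Real.sqrt r)⁻¹ + 2 * Real.pi * (Real.log r / Real.sqrt r)) * r := by
      refine h1.trans ?_
      have e1 : (Real.sqrt r)⁻¹ * (∫ z in Metric.ball (0:ℂ) r, aa z) ≤ (Real.sqrt r)⁻¹ * (C * r) := by
        gcongr
      have e2 : 2 * Real.pi / (Real.sqrt r)⁻¹ * Real.log r =
          2 * Real.pi * (Real.log r / Real.sqrt r) * r := by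
        have hd : r / Real.sqrt r = Real.sqrt r := by
          rw [div_eq_iff hs.ne']; exact hss.symm
        rw [div_inv_eq_mul]
        calc 2 * Real.pi * Real.sqrt r * Real.log r = 2 * Real.pi * Real.log r * (r / Real.sqrt r) := by
              rw [hd]; ring
          _ = _ := by ring
      have e3 : K / r * r = K := by field_simp
      rw [e2]
      rw [add_mul, add_mul, e3]
      linarith
    have hlog : 0 ≤ Real.log r := Real.log_nonneg (by linarith)
    have h6 : 0 ≤ K / r + C * (Real.sqrt r)⁻¹ + 2 * Real.pi * (Real.log r / Real.sqrt r) := by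
      positivity
    calc (∫ t in (0 : ℝ)..r, len fTwo t / t) ≤ _ := h5
      _ = 4096 * (K / r + C * (Real.sqrt r)⁻¹ + 2 * Real.pi * (Real.log r / Real.sqrt r)) *
          (r / 4096) := by ring
      _ ≤ _ := by gcongr
  have hlim : Tendsto (fun r : ℝ => 4096 * (K / r + C * (Real.sqrt r)⁻¹ +
      2 * Real.pi * (Real.log r / Real.sqrt r))) atTop (𝓝 0) := by
    have l1 : Tendsto (fun r : ℝ => K / r) atTop (𝓝 0) := tendsto_const_nhds.div_atTop tendsto_id
    have l2 : Tendsto (fun r : ℝ => (Real.sqrt r)⁻¹) atTop (𝓝 0) :=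
      tendsto_inv_atTop_zero.comp Real.tendsto_sqrt_atTop
    have l3 : Tendsto (fun r : ℝ => Real.log r / Real.sqrt r) atTop (𝓝 0) := by
      have := (isLittleO_log_rpow_atTop (r := 1/2) (by norm_num)).tendsto_div_nhds_zero
      refine this.congr fun r => ?_
      rw [Real.sqrt_eq_rpow]
    have := ((l1.add (l2.const_mul C)).add (l3.const_mul (2 * Real.pi))).const_mul (4096 : ℝ)
    simpa using this
  refine squeeze_zero' ?_ ?_ hlim
  · filter_upwards [eventually_ge_atTop 32] with r hr
    have h3 := nev_fs_ge (r := r) (by linarith)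
    apply div_nonneg
    · rw [intervalIntegral.integral_of_le (by linarith)]
      apply setIntegral_nonneg measurableSet_Ioc
      intro t ht
      exact div_nonneg (len_nonneg t) ht.1.le
    · linarith
  · filter_upwards [eventually_ge_atTop 32] with r hr
    exact hup r hr

end Pool.Agent.R235.DS
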