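import Pool.Agent.R235.DS.Weak

set_option autoImplicit false

open MeasureTheory Filter Topology Set Matrix
open scoped ComplexConjugate ContDiff

namespace Pool.Agent.R235.DS

attribute [local instance] borelZZ

/-- Nevanlinna currents of `f_[2]` exist. -/
theorem exists_nevanlinna : ∃ S, IsNevanlinna fTwo fs S := by
  let r : ℕ → ℝ := fun j => (j : ℝ) + 17
  have hr : ∀ j, 17 ≤ r j := fun j => by
    have : (0:ℝ) ≤ j := Nat.cast_nonneg j
    change 17 ≤ (j : ℝ) + 17
    linarith
  have hrt : Tendsto r atTop atTop :=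
    tendsto_atTop_add_const_right _ _ tendsto_natCast_atTop_atTop
  obtain ⟨φ, τ, hφ, hτ, hlim⟩ := extract r hr
  have hrφ : Tendsto (fun j => r (φ j)) atTop atTop := hrt.comp hφ.tendsto_atTop
  refine ⟨fun α => ∫ q : ↥ZZ, α q.1.1 q.1.2.1 q.1.2.2 ∂τ, fun j => r (φ j), hrφ,
    boundary.comp hrφ, fun α hα => ?_⟩
  have h1 := hlim (fun q : ↥ZZ => α q.1.1 q.1.2.1 q.1.2.2)
    (hα.continuous.comp continuous_subtype_val)
  refine h1.congr fun j => ?_
  exact tauM_form hα (hr _)

/-- the projection of the bundle of 2-vectors to the space -/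
noncomputable def prj (q : ↥ZZ) : EE := q.1.1

lemma continuous_prj : Continuous prj := continuous_fst.comp continuous_subtype_val

lemma prj_mem (q : ↥ZZ) : prj q ∈ X2 := q.2.1

/-- representation of a Nevanlinna current by a measure on 2-vectors -/
lemma represent {S : (EE → EE → EE → ℝ) → ℝ} (hS : IsNevanlinna fTwo fs S) :
    ∃ τ : Measure ↥ZZ, IsProbabilityMeasure τ ∧
      (∀ α, IsForm2 α → S α = ∫ q : ↥ZZ, α q.1.1 q.1.2.1 q.1.2.2 ∂τ) ∧
      ∀ᵐ q ∂τ, fs q.1.1 q.1.2.1 q.1.2.2 = 1 := by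
  obtain ⟨r, hr, -, hlimS⟩ := hS
  obtain ⟨N, hN⟩ := eventually_atTop.mp (hr.eventually_ge_atTop 17)
  obtain ⟨φ, τ, hφ, hτ, hlim⟩ := extract (fun j => r (j + N)) (fun j => hN _ (by omega))
  refine ⟨τ, hτ, fun α hα => ?_, ?_⟩
  · have h1 := hlim (fun q : ↥ZZ => α q.1.1 q.1.2.1 q.1.2.2)
      (hα.continuous.comp continuous_subtype_val)
    have h2 : Tendsto (fun j => nev fTwo α (r (φ j + N)) / nev fTwo fs (r (φ j + N))) atTop
        (𝓝 (S α)) := by
      have h3 : Tendsto (fun j => φ j + N) atTop atTop :=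
        tendsto_atTop_mono (fun j => Nat.le_add_right _ _) hφ.tendsto_atTop
      exact (hlimS α hα).comp h3
    refine tendsto_nhds_unique h2 (h1.congr fun j => ?_)
    exact tauM_form hα (hN _ (by omega))
  · have hc : Continuous fun q : ↥ZZ => |fs q.1.1 q.1.2.1 q.1.2.2 - 1| :=
      ((isForm2_fs.continuous.comp continuous_subtype_val).sub continuous_const).abs
    have h1 := hlim _ hc
    have h2 : ∫ q : ↥ZZ, |fs q.1.1 q.1.2.1 q.1.2.2 - 1| ∂τ = 0 := by
      refine tendsto_nhds_unique h1 ?_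
      have e : ∀ j, ∫ q : ↥ZZ, |fs q.1.1 q.1.2.1 q.1.2.2 - 1| ∂(tauM (r (φ j + N))) = 0 :=
        fun j => tauM_one (hN _ (by omega))
      simp only [e]
      exact tendsto_const_nhds
    have hint : Integrable (fun q : ↥ZZ => |fs q.1.1 q.1.2.1 q.1.2.2 - 1|) τ :=
      hc.integrable_of_hasCompactSupport (HasCompactSupport.of_compactSpace _)
    rw [integral_eq_zero_iff_of_nonneg (fun q => abs_nonneg _) hint] at h2
    filter_upwards [h2] with q hq
    have h3 : |fs q.1.1 q.1.2.1 q.1.2.2 - 1| = 0 := hq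
    rw [abs_eq_zero] at h3
    linarith

lemma cut_lower_lim : ∃ c : ℝ, 0 < c ∧ ∀ δ : ℝ, 0 < δ → ∀ S, IsNevanlinna fTwo fs S →
    c ≤ S (fun P A B => cutD δ P * fs P A B) := by
  obtain ⟨C, hC0, hC⟩ := nev_fs_le
  refine ⟨1 / (4096 * C), by positivity, fun δ hδ S hS => ?_⟩
  obtain ⟨r, hr, -, hlimS⟩ := hS
  obtain ⟨R, hR4, hR⟩ := nev_cut_lower hδ
  have h1 := hlimS _ (isForm2_mul isForm2_fs (continuous_cutD δ))
  refine ge_of_tendsto h1 ?_
  filter_upwards [hr.eventually_ge_atTop (8 * R), hr.eventually_ge_atTop 17] with j hj hj2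
  have h2 := hR (r j) (by linarith)
  have h3 := hC (r j) (by linarith)
  have h4 := nev_pos hj2
  have h5 : 0 < r j := by linarith
  rw [le_div_iff₀ h4]
  refine le_trans ?_ h2
  rw [div_mul_eq_mul_div, one_mul, div_le_div_iff₀ (by positivity) (by norm_num)]
  nlinarith

/-- Trace measures of Nevanlinna currents of `f_[2]` exist and charge `D₂`. -/
theorem trace_charges : ∃ c : ℝ, 0 < c ∧ ∀ S, IsNevanlinna fTwo fs S →
    ∃ σ : Measure EE, IsProbabilityMeasure σ ∧ IsTrace fs S σ ∧ σ X2ᶜ = 0 ∧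
      ENNReal.ofReal c ≤ σ D2 := by
  obtain ⟨c, hc0, hc⟩ := cut_lower_lim
  refine ⟨c, hc0, fun S hS => ?_⟩
  obtain ⟨τ, hτ, hrep, hone⟩ := represent hS
  have hmp : Measurable prj := continuous_prj.measurable
  have hσ : IsProbabilityMeasure (τ.map prj) :=
    Measure.isProbabilityMeasure_map hmp.aemeasurable
  have htr : IsTrace fs S (τ.map prj) := by
    intro h hh
    rw [integral_map hmp.aemeasurable hh.aestronglyMeasurable, hrep _ (isForm2_mul isForm2_fs hh)]
    refine integral_congr_ae ?_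
    filter_upwards [hone] with q hq
    rw [hq, mul_one]
    rfl
  have hX : (τ.map prj) X2ᶜ = 0 := by
    rw [Measure.map_apply hmp isCompact_X2.isClosed.measurableSet.compl]
    have : prj ⁻¹' X2ᶜ = ∅ := by
      ext q
      simp only [mem_preimage, mem_compl_iff, mem_empty_iff_false, iff_false, not_not]
      exact prj_mem q
    rw [this, measure_empty]
  refine ⟨τ.map prj, hσ, htr, hX, ?_⟩
  set σ := τ.map prj with hσdef
  -- sublevel sets
  have hlow : ∀ δ : ℝ, 0 < δ → ENNReal.ofReal c ≤ σ {P | sfun P ≤ 2 * δ} := by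
    intro δ hδ
    have hms : MeasurableSet {P : EE | sfun P ≤ 2 * δ} :=
      (isClosed_le continuous_sfun continuous_const).measurableSet
    have h1 : c ≤ ∫ P, cutD δ P ∂σ := by
      rw [htr _ (continuous_cutD δ)]
      exact hc δ hδ S hS
    have h2 : ∫ P, cutD δ P ∂σ ≤ ∫ P, ({P : EE | sfun P ≤ 2 * δ}).indicator (fun _ => (1:ℝ)) P ∂σ := by
      apply integral_mono_of_nonneg (Eventually.of_forall fun P => cutD_nonneg _ _)
      · exact (integrable_const (1:ℝ)).indicator hms
      · refine Eventually.of_forall fun P => ?_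
        by_cases h : sfun P ≤ 2 * δ
        · rw [indicator_of_mem (by exact h)]; exact cutD_le_one _ _
        · rw [indicator_of_notMem (by exact h)]
          exact (cutD_eq_zero hδ (not_le.mp h)).le
    rw [integral_indicator_const _ hms, smul_eq_mul, mul_one] at h2
    have h3 : c ≤ σ.real {P : EE | sfun P ≤ 2 * δ} := h1.trans h2
    rw [ENNReal.ofReal_le_iff_le_toReal (measure_ne_top _ _)]
    exact h3
  let s : ℕ → Set EE := fun n => {P | sfun P ≤ 2 * (1 / ((n : ℝ) + 1))}
  have hs_anti : Antitone s := by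
    intro m n hmn P hP
    have h1 : sfun P ≤ 2 * (1 / ((n : ℝ) + 1)) := hP
    have h2 : 1 / ((n : ℝ) + 1) ≤ 1 / ((m : ℝ) + 1) := one_div_le_one_div_of_le (by positivity)
      (by have : (m : ℝ) ≤ n := by exact_mod_cast hmn
          linarith)
    change sfun P ≤ 2 * (1 / ((m : ℝ) + 1))
    linarith
  have hs_meas : ∀ n, NullMeasurableSet (s n) σ := fun n =>
    (isClosed_le continuous_sfun continuous_const).measurableSet.nullMeasurableSet
  have hlim := tendsto_measure_iInter_atTop hs_meas hs_anti ⟨0, measure_ne_top _ _⟩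
  have hge : ENNReal.ofReal c ≤ σ (⋂ n, s n) := by
    refine ge_of_tendsto hlim (Eventually.of_forall fun n => ?_)
    exact hlow _ (by positivity)
  have hsub : (⋂ n, s n) ⊆ D2 ∪ X2ᶜ := by
    intro P hP
    by_cases hX2 : P ∈ X2
    · left
      rw [D2_eq]
      refine ⟨hX2, ?_⟩
      have h1 := sfun_nonneg_of_mem hX2
      have h2 : sfun P ≤ 0 := by
        have h3 : Tendsto (fun n : ℕ => 2 * (1 / ((n : ℝ) + 1))) atTop (𝓝 (2 * 0)) :=
          tendsto_one_div_add_atTop_nhds_zero_nat.const_mul 2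
        rw [mul_zero] at h3
        refine ge_of_tendsto h3 (Eventually.of_forall fun n => ?_)
        exact mem_iInter.mp hP n
      exact le_antisymm h2 h1
    · right; exact hX2
  calc ENNReal.ofReal c ≤ σ (⋂ n, s n) := hge
    _ ≤ σ (D2 ∪ X2ᶜ) := measure_mono hsub
    _ ≤ σ D2 + σ X2ᶜ := measure_union_le _ _
    _ = σ D2 := by rw [hX, add_zero]

end Pool.Agent.R235.DS
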