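import Pool.Agent.R235.DS.LapLog
import Pool.Agent.R235.DS.AreaB

set_option autoImplicit false

open MeasureTheory Filter Topology Laplacian InnerProductSpace
open scoped ComplexConjugate ContDiff

namespace Pool.Agent.R235.DS

/-- derivative of the homogeneous lift -/
noncomputable def Fd (z : ℂ) : Fin 3 → ℂ := ![0, 1, Complex.exp z]
/-- second derivative of the homogeneous lift -/
noncomputable def Fdd (z : ℂ) : Fin 3 → ℂ := ![0, 0, Complex.exp z]
/-- the line -/
noncomputable def Gc (z : ℂ) : Fin 3 → ℂ := ![(z - 1) * Complex.exp z, -Complex.exp z, 1]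
/-- derivative of the line -/
noncomputable def Gd (z : ℂ) : Fin 3 → ℂ := ![z * Complex.exp z, -Complex.exp z, 0]

lemma hasDerivAt_F (z : ℂ) : HasDerivAt Fcurve (Fd z) z := by
  rw [hasDerivAt_pi]
  intro i
  fin_cases i
  · exact hasDerivAt_const z (1 : ℂ)
  · exact hasDerivAt_id z
  · exact Complex.hasDerivAt_exp z

lemma deriv_F : deriv Fcurve = Fd := by
  funext z; exact (hasDerivAt_F z).deriv

lemma hasDerivAt_Fd (z : ℂ) : HasDerivAt Fd (Fdd z) z := by
  rw [hasDerivAt_pi]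
  intro i
  fin_cases i
  · exact hasDerivAt_const z (0 : ℂ)
  · exact hasDerivAt_const z (1 : ℂ)
  · exact Complex.hasDerivAt_exp z

lemma lift2_F (z : ℂ) : lift2 Fcurve z = ⟨Fcurve z, Fd z, 1, Fdd z⟩ := by
  unfold lift2
  rw [deriv_F, (hasDerivAt_Fd z).deriv]

lemma G_lift (z : ℂ) : (lift2 Fcurve z).G = Gc z := by
  rw [lift2_F]
  unfold Dat.G
  simp only
  rw [crossProduct]
  ext i
  fin_cases i <;> simp [Fcurve, Fd, Gc] <;> ring

lemma W_lift (z : ℂ) : (lift2 Fcurve z).W = Complex.exp z := by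
  unfold Dat.W
  rw [G_lift, lift2_F]
  simp [Fdd, Gc, dotProduct, Fin.sum_univ_three]

/-- the `ℂ^54` factor -/
noncomputable def wc (z : ℂ) : Bool × Fin 3 × Fin 3 × Fin 3 → ℂ := fun i =>
  if i.1 then Gc z i.2.1 * Gc z i.2.2.1 * Gc z i.2.2.2
  else Complex.exp z * (Fcurve z i.2.1 * Fcurve z i.2.2.1 * Fcurve z i.2.2.2)

/-- the Segre vector of the curve -/
noncomputable def seg (z : ℂ) : Idx → ℂ := (lift2 Fcurve z).seg

lemma seg_apply (z : ℂ) (i : Idx) : seg z i = Fcurve z i.1 * Gc z i.2.1 * wc z i.2.2 := by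
  unfold seg Dat.seg wc
  rw [G_lift, W_lift, lift2_F]
  simp only [one_mul]

lemma diff_F (i : Fin 3) : Differentiable ℂ fun z => Fcurve z i := fun z =>
  (hasDerivAt_pi.mp (hasDerivAt_F z) i).differentiableAt

lemma diff_G (i : Fin 3) : Differentiable ℂ fun z => Gc z i := by
  fin_cases i
  · exact (differentiable_id.sub_const 1).mul Complex.differentiable_exp
  · exact Complex.differentiable_exp.neg
  · exact differentiable_const (1 : ℂ)

lemma diff_w (i : Bool × Fin 3 × Fin 3 × Fin 3) : Differentiable ℂ fun z => wc z i := by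
  unfold wc
  split_ifs
  · exact ((diff_G _).mul (diff_G _)).mul (diff_G _)
  · exact Complex.differentiable_exp.mul (((diff_F _).mul (diff_F _)).mul (diff_F _))

lemma diff_seg (i : Idx) : Differentiable ℂ fun z => seg z i := by
  simp only [seg_apply]
  exact ((diff_F _).mul (diff_G _)).mul (diff_w _)

lemma F_ne (z : ℂ) : Fcurve z ≠ 0 := by
  intro h
  have := congrFun h 0
  simp [Fcurve] at this

lemma G_ne (z : ℂ) : Gc z ≠ 0 := by
  intro h
  have := congrFun h 2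
  simp [Gc] at this

lemma w_ne (z : ℂ) : wc z ≠ 0 := by
  intro h
  have := congrFun h (true, 2, 2, 2)
  simp [wc, Gc] at this

lemma seg_ne (z : ℂ) : seg z ≠ 0 := by
  intro h
  have := congrFun h (0, 2, true, 2, 2, 2)
  rw [seg_apply] at this
  simp [wc, Gc, Fcurve] at this

lemma lift_ok (z : ℂ) : (lift2 Fcurve z).ok := by
  refine ⟨?_, Or.inl ?_⟩
  · rw [G_lift]; exact G_ne z
  · rw [lift2_F]; simp

/-- tensor norms -/
lemma nsq_tensor {α β : Type*} [Fintype α] [Fintype β] (A : α → ℂ) (B : β → ℂ) :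
    nsq (fun p : α × β => A p.1 * B p.2) = nsq A * nsq B := by
  unfold nsq
  rw [Fintype.sum_prod_type, Finset.sum_mul_sum]
  refine Finset.sum_congr rfl fun i _ => Finset.sum_congr rfl fun j _ => ?_
  rw [norm_mul, mul_pow]

lemma nsq_seg (z : ℂ) : nsq (seg z) = nsq (Fcurve z) * (nsq (Gc z) * nsq (wc z)) := by
  have e : seg z = fun p : Fin 3 × Fin 3 × Bool × Fin 3 × Fin 3 × Fin 3 =>
      Fcurve z p.1 * (fun q : Fin 3 × Bool × Fin 3 × Fin 3 × Fin 3 => Gc z q.1 * wc z q.2) p.2 := by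
    funext p; rw [seg_apply]; ring
  rw [e, nsq_tensor (Fcurve z) (fun q : Fin 3 × Bool × Fin 3 × Fin 3 × Fin 3 => Gc z q.1 * wc z q.2),
    nsq_tensor (Gc z) (wc z)]

lemma nsq_w (z : ℂ) : nsq (wc z) = nsq (Gc z) ^ 3 + ‖Complex.exp z‖ ^ 2 * nsq (Fcurve z) ^ 3 := by
  have h3 : ∀ A : Fin 3 → ℂ, ∀ c : ℂ, ∑ x : Fin 3 × Fin 3 × Fin 3, ‖c * (A x.1 * A x.2.1 * A x.2.2)‖ ^ 2 =
      ‖c‖ ^ 2 * nsq A ^ 3 := by
    intro A c
    have := nsq_tensor (α := Fin 3) (β := Fin 3 × Fin 3) A (fun q => A q.1 * A q.2)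
    rw [nsq_tensor] at this
    have e : ∀ x : Fin 3 × Fin 3 × Fin 3, ‖c * (A x.1 * A x.2.1 * A x.2.2)‖ ^ 2 =
      ‖c‖ ^ 2 * ‖A x.1 * (A x.2.1 * A x.2.2)‖ ^ 2 := by
      intro x
      rw [norm_mul, mul_pow, mul_assoc (A x.1)]
    simp only [e]
    rw [← Finset.mul_sum]
    unfold nsq at this ⊢
    rw [this]
    ring
  unfold nsq wc
  rw [Fintype.sum_prod_type, Fintype.sum_bool]
  simp only [if_true, Bool.false_eq_true, if_false]
  have h1 := h3 (Gc z) 1
  have h2 := h3 (Fcurve z) (Complex.exp z)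
  simp only [one_mul, norm_one, one_pow] at h1
  rw [h1, h2]
  rfl

end Pool.Agent.R235.DS
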