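import Pool.Agent.R235.DS.Curve

set_option autoImplicit false

open MeasureTheory Filter Topology Laplacian InnerProductSpace
open scoped ComplexConjugate ContDiff

namespace Pool.Agent.R235.DS

variable {ι : Type*} [Fintype ι]

/-- componentwise derivative -/
noncomputable def dH {ι : Type*} (H : ℂ → ι → ℂ) (z : ℂ) (i : ι) : ℂ := deriv (fun w => H w i) z

lemma hasDerivAt_dH {H : ℂ → ι → ℂ} (hd : ∀ i, Differentiable ℂ fun z => H z i) (i : ι) (z : ℂ) :
    HasDerivAt (fun w => H w i) (dH H z i) z := (hd i z).hasDerivAt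

lemma diff_dH {H : ℂ → ι → ℂ} (hd : ∀ i, Differentiable ℂ fun z => H z i) (i : ι) :
    Differentiable ℂ fun z => dH H z i := by
  intro z
  have h : AnalyticAt ℂ (fun w => H w i) z := (hd i).analyticAt z
  exact h.deriv.differentiableAt

/-- density of a curve -/
noncomputable def den {ι : Type*} [Fintype ι] (H : ℂ → ι → ℂ) (z : ℂ) : ℝ := dens (H z) (dH H z)

lemma den_nonneg (H : ℂ → ι → ℂ) (z : ℂ) : 0 ≤ den H z := dens_nonneg _ _

lemma lap_log {H : ℂ → ι → ℂ} (hd : ∀ i, Differentiable ℂ fun z => H z i) (hne : ∀ z, H z ≠ 0)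
    (z : ℂ) : Δ (fun w => Real.log (nsq (H w))) z = 4 * den H z :=
  laplacian_log_nsq (hasDerivAt_dH hd) (hasDerivAt_dH (diff_dH hd)) hne z

lemma cd_log {H : ℂ → ι → ℂ} (hd : ∀ i, Differentiable ℂ fun z => H z i) (hne : ∀ z, H z ≠ 0) :
    ContDiff ℝ 2 (fun w => Real.log (nsq (H w))) := contDiff_log_nsq (hasDerivAt_dH hd) hne

lemma continuous_den {H : ℂ → ι → ℂ} (hd : ∀ i, Differentiable ℂ fun z => H z i)
    (hne : ∀ z, H z ≠ 0) : Continuous (den H) := by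
  have h1 : den H = fun z => (1/4) * Δ (fun w => Real.log (nsq (H w))) z := by
    funext z; rw [lap_log hd hne]; ring
  rw [h1]
  exact continuous_const.mul (Pool.Agent.R235.BD.continuous_laplacian (cd_log hd hne))

lemma den_seg_ge (z : ℂ) : den Gc z ≤ den seg z := by
  have h1 : (fun w => Real.log (nsq (seg w))) = (fun w => Real.log (nsq (Fcurve w))) +
      ((fun w => Real.log (nsq (Gc w))) + fun w => Real.log (nsq (wc w))) := by
    funext w
    simp only [Pi.add_apply]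
    rw [nsq_seg, Real.log_mul (nsq_pos (F_ne w)).ne'
      (mul_pos (nsq_pos (G_ne w)) (nsq_pos (w_ne w))).ne',
      Real.log_mul (nsq_pos (G_ne w)).ne' (nsq_pos (w_ne w)).ne']
  have h2 := lap_log diff_seg seg_ne z
  have hgw : ContDiff ℝ 2 ((fun w => Real.log (nsq (Gc w))) + fun w => Real.log (nsq (wc w))) :=
    (cd_log diff_G G_ne).add (cd_log diff_w w_ne)
  have a1 := ((cd_log diff_F F_ne).contDiffAt (x := z)).laplacian_add hgw.contDiffAt
  have a2 := ((cd_log diff_G G_ne).contDiffAt (x := z)).laplacian_add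
    ((cd_log diff_w w_ne).contDiffAt)
  rw [h1, a1, a2, lap_log diff_F F_ne, lap_log diff_G G_ne, lap_log diff_w w_ne] at h2
  have h3 := den_nonneg Fcurve z
  have h4 := den_nonneg wc z
  linarith

lemma nsq_F (z : ℂ) : nsq (Fcurve z) = 1 + ‖z‖ ^ 2 + ‖Complex.exp z‖ ^ 2 := by
  unfold nsq
  rw [Fin.sum_univ_three]
  simp [Fcurve]

lemma nsq_G (z : ℂ) : nsq (Gc z) = ‖z - 1‖ ^ 2 * ‖Complex.exp z‖ ^ 2 + ‖Complex.exp z‖ ^ 2 + 1 := by
  unfold nsq
  rw [Fin.sum_univ_three]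
  simp [Gc, mul_pow]

lemma one_le_nsq_F (z : ℂ) : 1 ≤ nsq (Fcurve z) := by rw [nsq_F]; nlinarith [sq_nonneg ‖z‖, sq_nonneg ‖Complex.exp z‖]
lemma one_le_nsq_G (z : ℂ) : 1 ≤ nsq (Gc z) := by
  rw [nsq_G]
  have := mul_nonneg (sq_nonneg ‖z - 1‖) (sq_nonneg ‖Complex.exp z‖)
  nlinarith [sq_nonneg ‖Complex.exp z‖]
lemma one_le_nsq_w (z : ℂ) : 1 ≤ nsq (wc z) := by
  rw [nsq_w]
  have h1 : 1 ≤ nsq (Gc z) ^ 3 := one_le_pow₀ (one_le_nsq_G z)
  have h2 : 0 ≤ ‖Complex.exp z‖ ^ 2 * nsq (Fcurve z) ^ 3 := by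
    have := nsq_nonneg (Fcurve z); positivity
  linarith

lemma one_le_nsq_seg (z : ℂ) : 1 ≤ nsq (seg z) := by
  rw [nsq_seg]
  have h1 := one_le_nsq_F z
  have h2 := one_le_nsq_G z
  have h3 := one_le_nsq_w z
  have h4 : 1 ≤ nsq (Gc z) * nsq (wc z) := by nlinarith
  nlinarith

lemma log_nsq_seg_le (z : ℂ) : |Real.log (nsq (seg z))| ≤ 18 * (1 + ‖z‖) := by
  rw [abs_of_nonneg (Real.log_nonneg (one_le_nsq_seg z))]
  set E := Real.exp ‖z‖ with hE
  have hE1 : 1 + ‖z‖ ≤ E := by have := Real.add_one_le_exp ‖z‖; linarith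
  have hz := norm_nonneg z
  have hE0 : 1 ≤ E := by linarith
  have hexp : ‖Complex.exp z‖ ≤ E := by
    rw [Complex.norm_exp]
    exact Real.exp_le_exp.mpr (Complex.re_le_norm z)
  have hexp0 := norm_nonneg (Complex.exp z)
  have hz1 : ‖z - 1‖ ≤ E := by
    have := norm_sub_le z 1
    rw [norm_one] at this; linarith
  have hz10 := norm_nonneg (z - 1)
  have e2 : ‖Complex.exp z‖ ^ 2 ≤ E ^ 2 := by gcongr
  have hF : nsq (Fcurve z) ≤ 3 * E ^ 2 := by
    rw [nsq_F]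
    have h1 : ‖z‖ ^ 2 ≤ E ^ 2 := by gcongr; linarith
    have h2 : 1 ≤ E ^ 2 := one_le_pow₀ hE0
    linarith
  have hG : nsq (Gc z) ≤ 3 * E ^ 4 := by
    rw [nsq_G]
    have h1 : ‖z - 1‖ ^ 2 * ‖Complex.exp z‖ ^ 2 ≤ E ^ 2 * E ^ 2 := by gcongr
    have h2 : E ^ 2 ≤ E ^ 4 := pow_le_pow_right₀ hE0 (by norm_num)
    have h3 : 1 ≤ E ^ 4 := one_le_pow₀ hE0
    nlinarith
  have hF0 := nsq_nonneg (Fcurve z)
  have hG0 := nsq_nonneg (Gc z)
  have hw : nsq (wc z) ≤ 54 * E ^ 12 := by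
    rw [nsq_w]
    have h1 : nsq (Gc z) ^ 3 ≤ (3 * E ^ 4) ^ 3 := by gcongr
    have h2 : ‖Complex.exp z‖ ^ 2 * nsq (Fcurve z) ^ 3 ≤ E ^ 2 * (3 * E ^ 2) ^ 3 := by gcongr
    have h3 : E ^ 8 ≤ E ^ 12 := pow_le_pow_right₀ hE0 (by norm_num)
    nlinarith
  have hw0 := nsq_nonneg (wc z)
  have hs : nsq (seg z) ≤ 486 * E ^ 18 := by
    rw [nsq_seg]
    calc nsq (Fcurve z) * (nsq (Gc z) * nsq (wc z)) ≤ (3 * E ^ 2) * ((3 * E ^ 4) * (54 * E ^ 12)) := by
          gcongr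
      _ = 486 * E ^ 18 := by ring
  have h1 : Real.log (nsq (seg z)) ≤ Real.log (486 * E ^ 18) :=
    Real.log_le_log (by have := one_le_nsq_seg z; linarith) hs
  rw [Real.log_mul (by norm_num) (by positivity), Real.log_pow, hE, Real.log_exp] at h1
  have h2 : Real.log 486 ≤ 18 := by
    rw [Real.log_le_iff_le_exp (by norm_num)]
    have h3 : (2 : ℝ) ^ 18 ≤ Real.exp 18 := by
      have h4 : (2 : ℝ) ≤ Real.exp 1 := by have := Real.add_one_le_exp (1 : ℝ); linarith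
      calc (2 : ℝ) ^ 18 ≤ (Real.exp 1) ^ 18 := by gcongr
        _ = Real.exp 18 := by rw [← Real.exp_nat_mul]; norm_num
    refine le_trans ?_ h3
    norm_num
  push_cast at h1
  linarith

/-- total area of the second lift in the disc of radius `t` is `O(t)` -/
theorem den_seg_area : ∃ C, 0 ≤ C ∧ ∀ t : ℝ, 1 ≤ t → ∫ z in Metric.ball 0 t, den seg z ≤ C * t := by
  obtain ⟨C, hC0, hC⟩ := area_bound (cd_log diff_seg seg_ne)
    (fun z => by rw [lap_log diff_seg seg_ne]; have := den_nonneg seg z; linarith)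
    (C := 18) log_nsq_seg_le
  refine ⟨C / 4, by positivity, fun t ht => ?_⟩
  have h1 := hC t ht
  simp only [lap_log diff_seg seg_ne] at h1
  rw [integral_const_mul] at h1
  linarith

/-- Lagrange-type inequality -/
lemma lagrange (G D : Fin 3 → ℂ) :
    nsq G * nsq D - ‖ip D G‖ ^ 2 ≥ ‖G 0 * D 2 - G 2 * D 0‖ ^ 2 := by
  have key : nsq G * nsq D - ‖ip D G‖ ^ 2 = ‖G 0 * D 2 - G 2 * D 0‖ ^ 2 +
      ‖G 0 * D 1 - G 1 * D 0‖ ^ 2 + ‖G 1 * D 2 - G 2 * D 1‖ ^ 2 := by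
    unfold nsq ip
    simp only [Fin.sum_univ_three, Complex.sq_norm, Complex.normSq_apply, Complex.add_re,
      Complex.add_im, Complex.mul_re, Complex.mul_im, Complex.sub_re, Complex.sub_im,
      Complex.conj_re, Complex.conj_im]
    ring
  rw [key]
  have h1 := sq_nonneg ‖G 0 * D 1 - G 1 * D 0‖
  have h2 := sq_nonneg ‖G 1 * D 2 - G 2 * D 1‖
  linarith

lemma dH_G (z : ℂ) : dH Gc z = Gd z := by
  funext i
  unfold dH
  fin_cases i
  · have h : HasDerivAt (fun w : ℂ => (w - 1) * Complex.exp w) (1 * Complex.exp z + (z - 1) * Complex.exp z) z :=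
      ((hasDerivAt_id z).sub_const 1).mul (Complex.hasDerivAt_exp z)
    have h2 : deriv (fun w => Gc w 0) z = 1 * Complex.exp z + (z - 1) * Complex.exp z := h.deriv
    change deriv (fun w => Gc w 0) z = z * Complex.exp z
    rw [h2]; ring
  · exact (Complex.hasDerivAt_exp z).neg.deriv
  · exact (hasDerivAt_const z (1 : ℂ)).deriv

/-- lower bound of the density of the line curve -/
lemma den_G_ge (z : ℂ) : (‖z‖ * ‖Complex.exp z‖) ^ 2 / nsq (Gc z) ^ 2 ≤ den Gc z := by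
  have hN := nsq_pos (G_ne z)
  unfold den dens
  rw [nsq_kk _ (G_ne z), dH_G]
  have h := lagrange (Gc z) (Gd z)
  have e : ‖Gc z 0 * Gd z 2 - Gc z 2 * Gd z 0‖ = ‖z‖ * ‖Complex.exp z‖ := by
    simp [Gc, Gd]
  rw [e] at h
  rw [div_le_div_iff₀ (by positivity) hN]
  have e2 : (nsq (Gd z) - ‖ip (Gd z) (Gc z)‖ ^ 2 / nsq (Gc z)) * nsq (Gc z) ^ 2 =
      (nsq (Gc z) * nsq (Gd z) - ‖ip (Gd z) (Gc z)‖ ^ 2) * nsq (Gc z) := by
    field_simp
  rw [e2]
  exact mul_le_mul_of_nonneg_right h hN.le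

/-- the region where the line turns -/
def Reg (R T : ℝ) : Set ℂ := {z | R ≤ z.im ∧ z.im ≤ T ∧ -Real.log z.im - 1/4 < z.re ∧
  z.re < -Real.log z.im + 1/4}

lemma reg_bounds {R T : ℝ} (hR : 4 ≤ R) {z : ℂ} (hz : z ∈ Reg R T) :
    z.im ≤ ‖z‖ ∧ ‖z‖ ≤ 3/2 * z.im ∧ 1/2 ≤ ‖z‖ * ‖Complex.exp z‖ ∧ ‖z‖ * ‖Complex.exp z‖ ≤ 2 := by
  obtain ⟨h1, h2, h3, h4⟩ := hz
  have hy : 4 ≤ z.im := hR.trans h1
  have hy0 : 0 < z.im := by linarith
  have hlog0 : 0 ≤ Real.log z.im := Real.log_nonneg (by linarith)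
  have hlog : Real.log z.im + 1/4 ≤ z.im * (1/2) + 0 := by
    have h5 : Real.log (z.im / 4) ≤ z.im / 4 - 1 := Real.log_le_sub_one_of_pos (by positivity)
    rw [Real.log_div hy0.ne' (by norm_num)] at h5
    have h6 : Real.log 4 ≤ 3/2 := by
      have : (4 : ℝ) = 2 ^ 2 := by norm_num
      rw [this, Real.log_pow]
      have := Real.log_two_lt_d9
      push_cast; linarith
    linarith
  have hre : |z.re| ≤ z.im / 2 := by
    rw [abs_le]; constructor <;> linarith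
  have ha : z.im ≤ ‖z‖ := (le_abs_self _).trans (Complex.abs_im_le_norm z)
  have hb : ‖z‖ ≤ 3/2 * z.im := by
    have := Complex.norm_le_abs_re_add_abs_im z
    rw [abs_of_pos hy0] at this
    linarith
  refine ⟨ha, hb, ?_, ?_⟩
  · rw [Complex.norm_exp]
    have h7 : Real.exp (-Real.log z.im - 1/4) ≤ Real.exp z.re := Real.exp_le_exp.mpr h3.le
    rw [Real.exp_sub, Real.exp_neg, Real.exp_log hy0] at h7
    have h8 : Real.exp (1/4) ≤ 2 := by
      have := Real.exp_one_lt_d9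
      have h9 : Real.exp (1/4) ≤ Real.exp 1 ^ ((1:ℝ)/4) := by
        rw [← Real.exp_mul]; norm_num
      have h10 : Real.exp 1 ^ ((1:ℝ)/4) ≤ (16:ℝ) ^ ((1:ℝ)/4) := by
        apply Real.rpow_le_rpow (by positivity) (by linarith) (by norm_num)
      have h11 : (16:ℝ) ^ ((1:ℝ)/4) = 2 := by
        rw [show (16:ℝ) = 2 ^ (4:ℝ) by norm_num, ← Real.rpow_mul (by norm_num)]; norm_num
      linarith
    have h12 : 1 / (2 * z.im) ≤ (z.im)⁻¹ / Real.exp (1/4) := by
      rw [← one_div, div_div]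
      apply one_div_le_one_div_of_le (by positivity)
      nlinarith
    calc (1:ℝ)/2 = z.im * (1 / (2 * z.im)) := by field_simp
      _ ≤ ‖z‖ * Real.exp z.re := by
          apply mul_le_mul ha (h12.trans h7) (by positivity) (norm_nonneg _)
  · rw [Complex.norm_exp]
    have h7 : Real.exp z.re ≤ Real.exp (-Real.log z.im + 1/4) := Real.exp_le_exp.mpr h4.le
    rw [Real.exp_add, Real.exp_neg, Real.exp_log hy0] at h7
    have h8 : Real.exp (1/4) ≤ 4/3 := by
      have h9 := Real.exp_one_lt_d9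
      have h10 : Real.exp (1/4) ^ 4 = Real.exp 1 := by rw [← Real.exp_nat_mul]; norm_num
      by_contra hcon
      push Not at hcon
      have h11 : ((4:ℝ)/3) ^ 4 < Real.exp (1/4) ^ 4 := by gcongr
      rw [h10] at h11
      norm_num at h11
      linarith
    calc ‖z‖ * Real.exp z.re ≤ (3/2 * z.im) * ((z.im)⁻¹ * Real.exp (1/4)) := by
          apply mul_le_mul hb h7 (by positivity) (by positivity)
      _ = 3/2 * Real.exp (1/4) := by field_simp
      _ ≤ 2 := by linarith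

end Pool.Agent.R235.DS
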