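import Mathlib

/-!
# The Demailly–Semple tower of the projective plane up to level two, Nevanlinna currents

Definitions for problem MP_0aacdf_an.
-/

set_option autoImplicit false

open MeasureTheory Filter Topology Matrix
open scoped ComplexConjugate

namespace Pool.Agent.R235.DS

/-- Homogeneous data of a point of `X₂` for `X = ℙ²(ℂ)`.

* the point of `X₀ = ℙ²` is `p = ℂ v`;
* the point of `X₁ = ℙ(T_X)` is `(p, L)` with `L = span(v, v')`, i.e. the tangent direction at `p`
  of a curve whose homogeneous lift has value `v` and derivative `v'`;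
* the fibre of `V₁` at `(p, L)` is `Hom(p, L/p) ⊕ Hom(L/p, ℂ³/L)` (the point moves along the line,
  the line turns around the point), and the point of `X₂ = ℙ(V₁)` is the direction of
  `(v ↦ x v', v' ↦ y)`. -/
structure Dat where
  /-- the point -/
  v : Fin 3 → ℂ
  /-- a second vector spanning the line -/
  v' : Fin 3 → ℂ
  /-- the velocity of the point, in units of `v'` -/
  x : ℂ
  /-- the velocity of `v'` modulo the line -/
  y : Fin 3 → ℂ

/-- Pluecker vector of the line `L = span(v, v')`. -/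
def Dat.G (d : Dat) : Fin 3 → ℂ := crossProduct d.v d.v'

/-- The coordinate of `y` modulo the line: `det(v, v', y)`. -/
def Dat.W (d : Dat) : ℂ := d.y ⬝ᵥ d.G

/-- The data define a point of `X₂`: `v, v'` are independent and the direction is nonzero. -/
def Dat.ok (d : Dat) : Prop := d.G ≠ 0 ∧ (d.x ≠ 0 ∨ d.W ≠ 0)

/-- Two data define the same point of `X₂`: same point, same line and proportional directions. -/
def Dat.Same (d e : Dat) : Prop :=
  ∃ a b c s : ℂ, a ≠ 0 ∧ b ≠ 0 ∧ c ≠ 0 ∧ e.v = a • d.v ∧ e.v' = b • d.v' + s • d.v ∧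
    b * e.x = c * a * d.x ∧ ∃ m n : ℂ, e.y = (c * b) • d.y + m • d.v + n • d.v'

/-- Index set of the homogeneous coordinates used to embed `X₂` in a projective space. -/
abbrev Idx : Type := Fin 3 × Fin 3 × Bool × Fin 3 × Fin 3 × Fin 3

/-- Homogeneous coordinates of the embedding of `X₂`: the tensor
`v ⊗ G ⊗ (x G⊗G⊗G ⊕ W v⊗v⊗v)`, where `G = v × v'` and `W = det(v, v', y)`. -/
noncomputable def Dat.seg (d : Dat) : Idx → ℂ := fun i =>
  d.v i.1 * d.G i.2.1 *
    (if i.2.2.1 then d.x * (d.G i.2.2.2.1 * d.G i.2.2.2.2.1 * d.G i.2.2.2.2.2)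
      else d.W * (d.v i.2.2.2.1 * d.v i.2.2.2.2.1 * d.v i.2.2.2.2.2))

/-- Square of the Hermitian norm of a vector. -/
noncomputable def nsq {ι : Type*} [Fintype ι] (H : ι → ℂ) : ℝ := ∑ i, ‖H i‖ ^ 2

/-- The point `[H]` of the projective space of `ℂ^ι`, as the orthogonal projection onto `ℂ H`,
given by its matrix `H_i conj(H_j) / |H|²`. -/
noncomputable def pr {ι : Type*} [Fintype ι] (H : ι → ℂ) : ι × ι → ℂ :=
  fun p => H p.1 * conj (H p.2) / (nsq H : ℂ)

/-- The point of `X₂`, embedded in projective space, defined by the data. -/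
noncomputable def Dat.pt (d : Dat) : Idx × Idx → ℂ := pr d.seg

/-- The space `X₂` (embedded in projective space). -/
def X2 : Set (Idx × Idx → ℂ) := {P | ∃ d : Dat, d.ok ∧ d.pt = P}

/-- The divisor `D₂ ⊆ X₂` of vertical directions (`x = 0`: the point does not move). This is the
singular locus of `X₂`. -/
def D2 : Set (Idx × Idx → ℂ) := {P | ∃ d : Dat, d.ok ∧ d.x = 0 ∧ d.pt = P}

/-- The second lift of the curve `[F]` in `ℙ²`, for `F : ℂ → ℂ³` holomorphic with `F`, `F'`
independent: the point is `[F]`, the line is `span(F, F')`, and the direction of the derivative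
of the first lift is `(F ↦ F', F' ↦ F'')`. -/
noncomputable def lift2 (F : ℂ → Fin 3 → ℂ) (z : ℂ) : Dat :=
  ⟨F z, deriv F z, 1, deriv (deriv F) z⟩

/-- The imaginary part of `tr(P A B)`. -/
noncomputable def imTr {ι : Type*} [Fintype ι] (P A B : ι × ι → ℂ) : ℝ :=
  (∑ i, ∑ j, ∑ k, P (i, j) * A (j, k) * B (k, i)).im

/-- The Fubini–Study Kähler form on projective space, seen in the space of matrices:
`ω_P(A, B) = Im tr(P (A B - B A)) / 2`. -/
noncomputable def fs {ι : Type*} [Fintype ι] (P A B : ι × ι → ℂ) : ℝ :=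
  (imTr P A B - imTr P B A) / 2

section currents
variable {E : Type*} [NormedAddCommGroup E] [NormedSpace ℝ E]

/-- A continuous differential form of degree two on `E`. -/
structure IsForm2 (α : E → E → E → ℝ) : Prop where
  continuous : Continuous fun p : E × E × E => α p.1 p.2.1 p.2.2
  add_left : ∀ P A B C, α P (A + B) C = α P A C + α P B C
  smul_left : ∀ P (c : ℝ) A B, α P (c • A) B = c * α P A B
  alt : ∀ P A B, α P A B = -α P B A

/-- `∫_{|z| < t} γ^* α`. -/
noncomputable def area (γ : ℂ → E) (α : E → E → E → ℝ) (t : ℝ) : ℝ :=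
  ∫ z in Metric.ball (0 : ℂ) t, α (γ z) (fderiv ℝ γ z 1) (fderiv ℝ γ z Complex.I)

/-- `∫_0^r ∫_{|z| < t} γ^* α dt/t`. -/
noncomputable def nev (γ : ℂ → E) (α : E → E → E → ℝ) (r : ℝ) : ℝ :=
  ∫ t in (0 : ℝ)..r, area γ α t / t

/-- The length of the curve `γ(∂D_t)`. -/
noncomputable def len (γ : ℂ → E) (t : ℝ) : ℝ :=
  ∫ θ in (0 : ℝ)..(2 * Real.pi),
    ‖fderiv ℝ γ (circleMap 0 t θ) (circleMap 0 t θ * Complex.I)‖

/-- `S` is a Nevanlinna current of the curve `γ`, normalized by the Kähler form `ω`: there are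
radii `r j → ∞` along which the boundary terms are negligible and
`(∫_0^r ∫_{D_t} γ^* ω dt/t)⁻¹ ∫_0^r γ_*[D_t] dt/t` converges to `S` on all continuous 2-forms. -/
def IsNevanlinna (γ : ℂ → E) (ω : E → E → E → ℝ) (S : (E → E → E → ℝ) → ℝ) : Prop :=
  ∃ r : ℕ → ℝ, Tendsto r atTop atTop ∧
    Tendsto (fun j => (∫ t in (0 : ℝ)..(r j), len γ t / t) / nev γ ω (r j)) atTop (𝓝 0) ∧
    ∀ α, IsForm2 α → Tendsto (fun j => nev γ α (r j) / nev γ ω (r j)) atTop (𝓝 (S α))

/-- `σ` is the trace measure `S ∧ ω` of `S`. -/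
def IsTrace [MeasurableSpace E] (ω : E → E → E → ℝ) (S : (E → E → E → ℝ) → ℝ)
    (σ : Measure E) : Prop :=
  ∀ h : E → ℝ, Continuous h → ∫ P, h P ∂σ = S (fun P A B => h P * ω P A B)

end currents

/-- The homogeneous lift `(1, z, exp z)` of the entire curve `z ↦ [1 : z : exp z]` in `ℙ²`. -/
noncomputable def Fcurve (z : ℂ) : Fin 3 → ℂ := ![1, z, Complex.exp z]

/-- The second lift `f_[2] : ℂ → X₂` of the entire curve `f(z) = [1 : z : exp z]`. -/
noncomputable def fTwo (z : ℂ) : Idx × Idx → ℂ := (lift2 Fcurve z).pt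

end Pool.Agent.R235.DS
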