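import Pool.Agent.R235.DS.Defs

set_option autoImplicit false

open MeasureTheory Filter Topology
open scoped ComplexConjugate ContDiff

namespace Pool.Agent.R235.DS

variable {ι : Type*} [Fintype ι]

/-- `|H|²` as a complex number -/
lemma nsq_coe (H : ι → ℂ) : (nsq H : ℂ) = ∑ i, H i * conj (H i) := by
  unfold nsq
  push_cast
  refine Finset.sum_congr rfl fun i _ => ?_
  rw [Complex.mul_conj, Complex.normSq_eq_norm_sq]; push_cast; rfl

lemma nsq_nonneg (H : ι → ℂ) : 0 ≤ nsq H := Finset.sum_nonneg fun i _ => by positivity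

lemma nsq_pos {H : ι → ℂ} (h : H ≠ 0) : 0 < nsq H := by
  obtain ⟨i, hi⟩ := Function.ne_iff.mp h
  have h1 : 0 < ‖H i‖ ^ 2 := by
    have := norm_pos_iff.mpr hi
    positivity
  refine lt_of_lt_of_le h1 ?_
  exact Finset.single_le_sum (f := fun i => ‖H i‖ ^ 2) (fun i _ => by positivity) (Finset.mem_univ i)

lemma norm_sq_le_nsq (H : ι → ℂ) (i : ι) : ‖H i‖ ^ 2 ≤ nsq H :=
  Finset.single_le_sum (f := fun i => ‖H i‖ ^ 2) (fun i _ => by positivity) (Finset.mem_univ i)

/-- `⟨D, H⟩ = Σ D_i conj(H_i)` -/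
noncomputable def ip (D H : ι → ℂ) : ℂ := ∑ i, D i * conj (H i)

/-- the component of `D` orthogonal to `H` -/
noncomputable def kk (H D : ι → ℂ) : ι → ℂ := fun i => D i - ip D H / (nsq H : ℂ) * H i

/-- the Fubini–Study density of a holomorphic curve with value `H` and derivative `D` -/
noncomputable def dens (H D : ι → ℂ) : ℝ := nsq (kk H D) / nsq H

lemma dens_nonneg (H D : ι → ℂ) : 0 ≤ dens H D := div_nonneg (nsq_nonneg _) (nsq_nonneg _)

lemma kk_orth {H : ι → ℂ} (D : ι → ℂ) (h : H ≠ 0) : ∑ i, kk H D i * conj (H i) = 0 := by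
  have hN : (nsq H : ℂ) ≠ 0 := by exact_mod_cast (nsq_pos h).ne'
  unfold kk
  simp only [sub_mul]
  rw [Finset.sum_sub_distrib]
  have h1 : ∑ i, ip D H / (nsq H : ℂ) * H i * conj (H i) = ip D H := by
    simp only [mul_assoc]
    rw [← Finset.mul_sum, ← nsq_coe]
    field_simp
  rw [h1]
  unfold ip
  ring

lemma kk_orth' {H : ι → ℂ} (D : ι → ℂ) (h : H ≠ 0) : ∑ i, conj (kk H D i) * H i = 0 := by
  have h1 := congrArg conj (kk_orth D h)
  rw [map_sum, map_zero] at h1
  rw [← h1]
  refine Finset.sum_congr rfl fun i _ => ?_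
  rw [map_mul, Complex.conj_conj]

lemma nsq_kk {H : ι → ℂ} (D : ι → ℂ) (h : H ≠ 0) :
    nsq (kk H D) = nsq D - ‖ip D H‖ ^ 2 / nsq H := by
  have hN : (nsq H : ℂ) ≠ 0 := by exact_mod_cast (nsq_pos h).ne'
  have key : (nsq (kk H D) : ℂ) = nsq D - ‖ip D H‖ ^ 2 / nsq H := by
    rw [nsq_coe]
    have e1 : ∀ i, kk H D i * conj (kk H D i) = D i * conj (kk H D i) -
        ip D H / (nsq H : ℂ) * (conj (kk H D i) * H i) := by
      intro i
      conv_lhs => rw [show kk H D i = D i - ip D H / (nsq H : ℂ) * H i from rfl, sub_mul]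
      rw [show kk H D i = D i - ip D H / (nsq H : ℂ) * H i from rfl]
      ring
    simp only [e1]
    rw [Finset.sum_sub_distrib, ← Finset.mul_sum, kk_orth' D h, mul_zero, sub_zero]
    have e2 : ∀ i, D i * conj (kk H D i) = D i * conj (D i) -
        conj (ip D H) / (nsq H : ℂ) * (D i * conj (H i)) := by
      intro i
      simp only [kk, map_sub, map_mul, map_div₀, Complex.conj_ofReal]
      ring
    simp only [e2]
    rw [Finset.sum_sub_distrib, ← Finset.mul_sum, ← nsq_coe]
    change (nsq D : ℂ) - conj (ip D H) / (nsq H : ℂ) * ip D H = _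
    have e3 : conj (ip D H) * ip D H = (‖ip D H‖ : ℂ) ^ 2 := by
      rw [mul_comm, Complex.mul_conj, Complex.normSq_eq_norm_sq]; push_cast; rfl
    rw [← e3]; ring
  exact_mod_cast key

section curve
variable {H D : ℂ → ι → ℂ}

/-- derivative of `H` along a real line -/
lemma line_deriv (hH : ∀ i z, HasDerivAt (fun w => H w i) (D z i) z) (z v : ℂ) (i : ι) :
    HasDerivAt (fun t : ℝ => H (z + t * v) i) (D z i * v) 0 := by
  have h1 : HasDerivAt (fun t : ℝ => z + (t : ℂ) * v) v 0 := by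
    have := ((Complex.ofRealCLM.hasDerivAt (x := (0 : ℝ))).mul_const v).const_add z
    simpa using this
  have h2 : HasDerivAt (fun w => H w i) (D z i) ((fun t : ℝ => z + (t : ℂ) * v) 0) := by
    simpa using hH i z
  have h3 : HasDerivAt ((fun w => H w i) ∘ fun t : ℝ => z + (t : ℂ) * v) (v • D z i) 0 :=
    HasDerivAt.scomp (𝕜 := ℝ) (𝕜' := ℂ) (0 : ℝ) h2 h1
  rw [smul_eq_mul, mul_comm] at h3
  exact h3

lemma line_deriv_conj (hH : ∀ i z, HasDerivAt (fun w => H w i) (D z i) z) (z v : ℂ) (i : ι) :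
    HasDerivAt (fun t : ℝ => conj (H (z + t * v) i)) (conj (D z i * v)) 0 :=
  (line_deriv hH z v i).star

lemma differentiableAt_pr (hH : ∀ i z, HasDerivAt (fun w => H w i) (D z i) z)
    (hne : ∀ z, H z ≠ 0) (z : ℂ) : DifferentiableAt ℝ (fun w => pr (H w)) z := by
  rw [differentiableAt_pi]
  intro p
  have h1 : ∀ i, DifferentiableAt ℝ (fun w => H w i) z := fun i =>
    (hH i z).differentiableAt.restrictScalars ℝ
  have h2 : ∀ i, DifferentiableAt ℝ (fun w => conj (H w i)) z := fun i => (h1 i).star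
  have h3 : DifferentiableAt ℝ (fun w => (nsq (H w) : ℂ)) z := by
    simp only [nsq_coe]
    exact DifferentiableAt.fun_sum fun i _ => (h1 i).mul (h2 i)
  have hN : (nsq (H z) : ℂ) ≠ 0 := by exact_mod_cast (nsq_pos (hne z)).ne'
  unfold pr
  simp only [div_eq_mul_inv]
  exact ((h1 _).mul (h2 _)).mul (h3.inv hN)

/-- the differential of the projection curve -/
lemma fderiv_pr (hH : ∀ i z, HasDerivAt (fun w => H w i) (D z i) z)
    (hne : ∀ z, H z ≠ 0) (z v : ℂ) (p : ι × ι) :
    fderiv ℝ (fun w => pr (H w)) z v p =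
      (kk (H z) (D z) p.1 * v * conj (H z p.2) + H z p.1 * conj (kk (H z) (D z) p.2 * v)) /
        (nsq (H z) : ℂ) := by
  have hN : (nsq (H z) : ℂ) ≠ 0 := by exact_mod_cast (nsq_pos (hne z)).ne'
  have hd := (differentiableAt_pr hH hne z).hasFDerivAt
  have h1 : HasDerivAt (fun t : ℝ => z + (t : ℂ) * v) v 0 := by
    have := ((Complex.ofRealCLM.hasDerivAt (x := (0 : ℝ))).mul_const v).const_add z
    simpa using this
  have hd' : HasFDerivAt (fun w => pr (H w)) (fderiv ℝ (fun w => pr (H w)) z)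
      ((fun t : ℝ => z + (t : ℂ) * v) 0) := by simpa using hd
  have h2 := hd'.comp_hasDerivAt (0 : ℝ) h1
  have h3 := (hasDerivAt_pi.mp h2) p
  have hnum := (line_deriv hH z v p.1).mul (line_deriv_conj hH z v p.2)
  have hden : HasDerivAt (fun t : ℝ => (nsq (H (z + t * v)) : ℂ))
      (∑ i, (D z i * v * conj (H z i) + H z i * conj (D z i * v))) 0 := by
    simp only [nsq_coe]
    have := HasDerivAt.fun_sum (u := Finset.univ) (fun i _ => (line_deriv hH z v i).mul
      (line_deriv_conj hH z v i))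
    simpa using this
  have hN0 : (nsq (H (z + ((0 : ℝ) : ℂ) * v)) : ℂ) ≠ 0 := by simpa using hN
  have h4 := hnum.div hden hN0
  have h5 : HasDerivAt (fun t : ℝ => pr (H (z + t * v)) p) _ 0 := h4
  have h6 := h3.unique h5
  have h7 : (fderiv ℝ (fun w => pr (H w)) z) v p = _ := h6
  rw [h7]
  have hB : ∑ i, (D z i * v * conj (H z i) + H z i * conj (D z i * v)) =
      ip (D z) (H z) * v + conj (ip (D z) (H z) * v) := by
    rw [Finset.sum_add_distrib]
    unfold ip
    rw [Finset.sum_mul, map_sum]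
    congr 1
    · refine Finset.sum_congr rfl fun i _ => ?_
      ring
    · refine Finset.sum_congr rfl fun i _ => ?_
      simp only [map_mul, Complex.conj_conj]
      ring
  rw [hB]
  simp only [Complex.ofReal_zero, zero_mul, add_zero, Pi.mul_apply]
  simp only [kk, map_mul, map_sub, map_div₀, Complex.conj_ofReal]
  field_simp
  ring

lemma imTr_pr (hH : ∀ i z, HasDerivAt (fun w => H w i) (D z i) z)
    (hne : ∀ z, H z ≠ 0) (z v w : ℂ) :
    imTr (pr (H z)) (fderiv ℝ (fun w => pr (H w)) z v) (fderiv ℝ (fun w => pr (H w)) z w) =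
      (conj v * w).im * dens (H z) (D z) := by
  have hN : (nsq (H z) : ℂ) ≠ 0 := by exact_mod_cast (nsq_pos (hne z)).ne'
  have hNr : nsq (H z) ≠ 0 := (nsq_pos (hne z)).ne'
  unfold imTr
  simp only [fderiv_pr hH hne]
  set h := H z with hh
  set k := kk (H z) (D z) with hk
  set N := (nsq (H z) : ℂ) with hNdef
  have o1 : ∑ i, k i * conj (h i) = 0 := kk_orth _ (hne z)
  have o2 : ∑ i, conj (k i) * h i = 0 := kk_orth' _ (hne z)
  have hNs : ∑ i, h i * conj (h i) = N := (nsq_coe _).symm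
  have e1 : ∑ i, ∑ j, ∑ l, pr h (i, j) * ((k j * v * conj (h l) + h j * conj (k l * v)) / N) *
      ((k l * w * conj (h i) + h l * conj (k i * w)) / N) =
      ∑ l, (1 / N ^ 3) * ((∑ j, conj (h j) * (k j * v * conj (h l) + h j * conj (k l * v))) *
        (∑ i, h i * (k l * w * conj (h i) + h l * conj (k i * w)))) := by
    have s1 : ∀ i, ∑ j, ∑ l, pr h (i, j) * ((k j * v * conj (h l) + h j * conj (k l * v)) / N) *
      ((k l * w * conj (h i) + h l * conj (k i * w)) / N) = ∑ l, ∑ j, pr h (i, j) *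
      ((k j * v * conj (h l) + h j * conj (k l * v)) / N) *
      ((k l * w * conj (h i) + h l * conj (k i * w)) / N) := fun i =>
        Finset.sum_comm
    simp only [s1]
    rw [Finset.sum_comm]
    refine Finset.sum_congr rfl fun l _ => ?_
    rw [Finset.sum_mul_sum, Finset.mul_sum, Finset.sum_comm]
    refine Finset.sum_congr rfl fun j _ => ?_
    rw [Finset.mul_sum]
    refine Finset.sum_congr rfl fun i _ => ?_
    simp only [pr]
    rw [← hNdef]
    field_simp
  rw [e1]
  have e2 : ∀ l, ∑ j, conj (h j) * (k j * v * conj (h l) + h j * conj (k l * v)) =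
      N * conj (k l * v) := by
    intro l
    have : ∀ j, conj (h j) * (k j * v * conj (h l) + h j * conj (k l * v)) =
        v * conj (h l) * (k j * conj (h j)) + conj (k l * v) * (h j * conj (h j)) := fun j => by ring
    simp only [this]
    rw [Finset.sum_add_distrib, ← Finset.mul_sum, ← Finset.mul_sum, o1, hNs]; ring
  have e3 : ∀ l, ∑ i, h i * (k l * w * conj (h i) + h l * conj (k i * w)) =
      N * (k l * w) := by
    intro l
    have : ∀ i, h i * (k l * w * conj (h i) + h l * conj (k i * w)) =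
        k l * w * (h i * conj (h i)) + h l * conj w * (conj (k i) * h i) := by
      intro i
      rw [map_mul]; ring
    simp only [this]
    rw [Finset.sum_add_distrib, ← Finset.mul_sum, ← Finset.mul_sum, o2, hNs]; ring
  simp only [e2, e3]
  have e4 : ∀ l, 1 / N ^ 3 * (N * conj (k l * v) * (N * (k l * w))) =
      (1 / N * (conj v * w)) * (k l * conj (k l)) := by
    intro l; rw [map_mul]; field_simp
  simp only [e4]
  rw [← Finset.mul_sum, ← nsq_coe, hNdef]
  unfold dens
  have e5 : (1 / (nsq (H z) : ℂ) * (conj v * w) * (nsq k : ℂ)) =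
      (conj v * w) * ((nsq k / nsq (H z) : ℝ) : ℂ) := by
    push_cast; field_simp
  rw [e5, Complex.im_mul_ofReal]

lemma fs_pr (hH : ∀ i z, HasDerivAt (fun w => H w i) (D z i) z)
    (hne : ∀ z, H z ≠ 0) (z : ℂ) :
    fs (pr (H z)) (fderiv ℝ (fun w => pr (H w)) z 1) (fderiv ℝ (fun w => pr (H w)) z Complex.I) =
      dens (H z) (D z) := by
  unfold fs
  rw [imTr_pr hH hne, imTr_pr hH hne]
  simp

lemma norm_kk_le (H D : ι → ℂ) (i : ι) : ‖kk H D i‖ ≤ Real.sqrt (nsq (kk H D)) := by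
  apply Real.le_sqrt_of_sq_le
  exact norm_sq_le_nsq _ _

lemma norm_fderiv_pr_le (hH : ∀ i z, HasDerivAt (fun w => H w i) (D z i) z)
    (hne : ∀ z, H z ≠ 0) (z v : ℂ) :
    ‖fderiv ℝ (fun w => pr (H w)) z v‖ ≤ 2 * ‖v‖ * Real.sqrt (dens (H z) (D z)) := by
  have hN : 0 < nsq (H z) := nsq_pos (hne z)
  rw [pi_norm_le_iff_of_nonneg (by positivity)]
  intro p
  rw [fderiv_pr hH hne, norm_div]
  have hNn : ‖(nsq (H z) : ℂ)‖ = nsq (H z) := by
    rw [Complex.norm_real, Real.norm_eq_abs, abs_of_pos hN]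
  rw [hNn, div_le_iff₀ hN]
  have hh : ∀ i, ‖H z i‖ ≤ Real.sqrt (nsq (H z)) := fun i =>
    Real.le_sqrt_of_sq_le (norm_sq_le_nsq _ _)
  have hk := norm_kk_le (H z) (D z)
  set A := Real.sqrt (nsq (kk (H z) (D z))) with hA
  set B := Real.sqrt (nsq (H z)) with hB
  have hA0 : 0 ≤ A := Real.sqrt_nonneg _
  have hB0 : 0 ≤ B := Real.sqrt_nonneg _
  have hBB : B * B = nsq (H z) := Real.mul_self_sqrt hN.le
  have hs : Real.sqrt (dens (H z) (D z)) = A / B := by
    unfold dens
    rw [Real.sqrt_div (nsq_nonneg _)]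
  have hBpos : 0 < B := Real.sqrt_pos.mpr hN
  rw [hs]
  calc ‖kk (H z) (D z) p.1 * v * conj (H z p.2) + H z p.1 * conj (kk (H z) (D z) p.2 * v)‖
      ≤ ‖kk (H z) (D z) p.1‖ * ‖v‖ * ‖H z p.2‖ + ‖H z p.1‖ * (‖kk (H z) (D z) p.2‖ * ‖v‖) := by
        refine (norm_add_le _ _).trans ?_
        simp only [norm_mul, RCLike.norm_conj, le_refl]
    _ ≤ A * ‖v‖ * B + B * (A * ‖v‖) := by
        gcongr
        · exact hk _
        · exact hh _
        · exact hh _
        · exact hk _
    _ = 2 * ‖v‖ * (A / B) * (B * B) := by field_simp; ring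
    _ = 2 * ‖v‖ * (A / B) * nsq (H z) := by rw [hBB]

end curve

end Pool.Agent.R235.DS
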