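import Pool.Agent.R235.DS.Nev

set_option autoImplicit false

open MeasureTheory Filter Topology Set
open scoped ComplexConjugate ContDiff

namespace Pool.Agent.R235.DS

lemma volume_ball_real {t : ℝ} (ht : 0 ≤ t) :
    (volume : Measure ℂ).real (Metric.ball 0 t) = t ^ 2 * Real.pi := by
  rw [Measure.real, Complex.volume_ball]
  simp [ENNReal.toReal_ofReal ht]

/-- `A(t)/t` is bounded -/
lemma area_div_bound : ∃ C : ℝ, 0 < C ∧ ∀ t : ℝ, 0 < t → (∫ z in Metric.ball 0 t, aa z) / t ≤ C := by
  obtain ⟨C, hC0, hC⟩ := den_seg_area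
  obtain ⟨M, hM⟩ := (isCompact_closedBall (0:ℂ) 1).exists_bound_of_continuousOn
    continuous_aa.continuousOn
  have hM0 : 0 ≤ M := (norm_nonneg _).trans (hM 0 (by simp))
  refine ⟨max (M * Real.pi) C + 1, by positivity, fun t ht => ?_⟩
  rcases le_or_gt t 1 with h | h
  · have h1 : ∫ z in Metric.ball (0:ℂ) t, aa z ≤ ∫ z in Metric.ball (0:ℂ) t, M := by
      apply setIntegral_mono_on
      · exact (continuous_aa.continuousOn.integrableOn_compact (isCompact_closedBall (0:ℂ) t)).mono_set
          Metric.ball_subset_closedBall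
      · exact integrableOn_const measure_ball_lt_top.ne
      · exact Metric.isOpen_ball.measurableSet
      · intro z hz
        have := hM z (by rw [mem_closedBall_zero_iff]; rw [mem_ball_zero_iff] at hz; linarith)
        exact (le_abs_self _).trans this
    rw [setIntegral_const, volume_ball_real ht.le, smul_eq_mul] at h1
    rw [div_le_iff₀ ht]
    refine h1.trans ?_
    have h2 : M * Real.pi ≤ max (M * Real.pi) C := le_max_left _ _
    have h3 : t ^ 2 * Real.pi * M ≤ M * Real.pi * t := by
      have : t ^ 2 ≤ t := by nlinarith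
      have h4 : 0 ≤ Real.pi * M := by positivity
      nlinarith
    nlinarith
  · rw [div_le_iff₀ ht]
    have h1 := hC t h.le
    have h2 : C ≤ max (M * Real.pi) C := le_max_right _ _
    change ∫ z in Metric.ball 0 t, den seg z ≤ _
    nlinarith

lemma nev_fs_le : ∃ C : ℝ, 0 < C ∧ ∀ r : ℝ, 0 ≤ r → nev fTwo fs r ≤ C * r := by
  obtain ⟨C, hC0, hC⟩ := area_div_bound
  refine ⟨C, hC0, fun r hr => ?_⟩
  rw [nev_fs, intervalIntegral.integral_of_le hr]
  calc ∫ t in Ioc 0 r, (∫ z in Metric.ball (0:ℂ) t, aa z) / t ≤ ∫ t in Ioc 0 r, C := by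
        apply integral_mono_of_nonneg
        · rw [EventuallyLE, ae_restrict_iff' measurableSet_Ioc]
          refine Eventually.of_forall fun t ht => ?_
          exact div_nonneg (integral_nonneg fun z => aa_nonneg z) ht.1.le
        · exact integrableOn_const measure_Ioc_lt_top.ne
        · rw [EventuallyLE, ae_restrict_iff' measurableSet_Ioc]
          exact Eventually.of_forall fun t ht => hC t ht.1
    _ = C * r := by
        rw [setIntegral_const, Real.volume_real_Ioc_of_le hr, smul_eq_mul]; ring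

/-- lower bound for the Nevanlinna pairing with a nonnegative weight equal to one near `D₂` -/
lemma nev_lower {k : ℂ → ℝ} (hk : Continuous k) (hk0 : ∀ z, 0 ≤ k z) {B : ℝ} (hB : ∀ z, |k z| ≤ B)
    {R : ℝ} (hR : 4 ≤ R) (hk1 : ∀ T, ∀ z ∈ Reg R T, 1 ≤ k z) {r : ℝ} (hr : 4 * R ≤ r) :
    (r - 4 * R) / 2048 ≤ ∫ t in (0:ℝ)..r, (∫ z in Metric.ball 0 t, k z * aa z) / t := by
  have hr0 : 0 ≤ r := by linarith
  rw [intervalIntegral.integral_of_le hr0]
  have hI := (integrable_mm (φ := k) continuous_aa aa_nonneg hk.measurable hB r).integral_prod_left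
  have hI2 : IntegrableOn (fun t => (∫ z in Metric.ball 0 t, k z * aa z) / t) (Ioc 0 r) := by
    refine hI.congr (Eventually.of_forall fun t => ?_)
    exact inner_int aa k t
  have h1 : ∫ t in Ioc (4 * R) r, (∫ z in Metric.ball 0 t, k z * aa z) / t ≤
      ∫ t in Ioc 0 r, (∫ z in Metric.ball 0 t, k z * aa z) / t := by
    apply setIntegral_mono_set hI2
    · rw [EventuallyLE, ae_restrict_iff' measurableSet_Ioc]
      refine Eventually.of_forall fun t ht => ?_
      exact div_nonneg (integral_nonneg fun z => mul_nonneg (hk0 z) (aa_nonneg z)) ht.1.le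
    · exact (Ioc_subset_Ioc_left (by linarith)).eventuallyLE
  refine le_trans ?_ h1
  have h2 : ∫ t in Ioc (4 * R) r, (1/2048 : ℝ) ≤
      ∫ t in Ioc (4 * R) r, (∫ z in Metric.ball 0 t, k z * aa z) / t := by
    apply setIntegral_mono_on (integrableOn_const measure_Ioc_lt_top.ne)
      (hI2.mono_set (Ioc_subset_Ioc_left (by linarith))) measurableSet_Ioc
    intro t ht
    have ht0 : 0 < t := by linarith [ht.1]
    rw [le_div_iff₀ ht0]
    have h3 := area_lower hk hk0 hR hk1 (t := t) (by linarith [ht.1])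
    refine le_trans ?_ h3
    have := ht.1
    linarith
  refine le_trans (le_of_eq ?_) h2
  rw [setIntegral_const, Real.volume_real_Ioc_of_le hr, smul_eq_mul]; ring

lemma nev_fs_ge {r : ℝ} (hr : 16 ≤ r) : (r - 16) / 2048 ≤ nev fTwo fs r := by
  have := nev_lower (k := fun _ => 1) continuous_const (by intro; norm_num) (B := 1) (by simp)
    (R := 4) le_rfl (by intros; norm_num) (r := r) (by linarith)
  rw [nev_fs]
  simp only [one_mul] at this
  linarith

/-! ### the boundary terms -/

lemma len_nonneg (t : ℝ) : 0 ≤ len fTwo t := by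
  unfold len
  exact intervalIntegral.integral_nonneg (by positivity) fun _ _ => norm_nonneg _

lemma len_le {t : ℝ} (ht : 0 < t) {s : ℝ} (hs : 0 < s) : len fTwo t / t ≤
    ∫ θ in (0:ℝ)..(2 * Real.pi), (s * (t * aa (circleMap 0 t θ)) + 1 / (s * t)) := by
  unfold len
  rw [← intervalIntegral.integral_div]
  have hcont1 : Continuous fun θ : ℝ => ‖fderiv ℝ fTwo (circleMap 0 t θ) (circleMap 0 t θ * Complex.I)‖ / t := by
    have h1 : Continuous fun z : ℂ => fderiv ℝ fTwo z := (contDiff_fTwo (n := 1)).continuous_fderiv (by norm_num)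
    have h2 : Continuous fun θ : ℝ => circleMap 0 t θ := continuous_circleMap 0 t
    exact (((h1.comp h2).clm_apply (h2.mul continuous_const)).norm).div_const t
  have hcont2 : Continuous fun θ : ℝ => (s * (t * aa (circleMap 0 t θ)) + 1 / (s * t)) := by
    have h2 : Continuous fun θ : ℝ => circleMap 0 t θ := continuous_circleMap 0 t
    have := continuous_aa.comp h2
    fun_prop
  apply intervalIntegral.integral_mono_on (by positivity) (hcont1.intervalIntegrable _ _)
    (hcont2.intervalIntegrable _ _)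
  intro θ _
  have h1 := norm_fderiv_le (circleMap 0 t θ) (circleMap 0 t θ * Complex.I)
  have h2 : ‖circleMap 0 t θ * Complex.I‖ = t := by
    rw [norm_mul, Complex.norm_I, mul_one]; simp [abs_of_pos ht]
  rw [h2] at h1
  set a := aa (circleMap 0 t θ) with ha
  have ha0 : 0 ≤ a := aa_nonneg _
  have hsq : Real.sqrt a ^ 2 = a := Real.sq_sqrt ha0
  have h3 : ‖fderiv ℝ fTwo (circleMap 0 t θ) (circleMap 0 t θ * Complex.I)‖ / t ≤ 2 * Real.sqrt a := by
    rw [div_le_iff₀ ht]; linarith
  refine h3.trans ?_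
  have h4 : 0 < s * t := by positivity
  have h5 : 0 ≤ (s * t * Real.sqrt a - 1) ^ 2 := sq_nonneg _
  have h6 : 2 * Real.sqrt a * (s * t) ≤ (s * (t * a) + 1 / (s * t)) * (s * t) := by
    rw [add_mul, one_div, inv_mul_cancel₀ h4.ne']
    have h7 : (s * t * Real.sqrt a) ^ 2 = s * (t * a) * (s * t) := by rw [mul_pow, hsq]; ring
    nlinarith
  exact le_of_mul_le_mul_right h6 h4

end Pool.Agent.R235.DS
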