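import Mathlib

set_option autoImplicit false

open MeasureTheory Filter Topology Set

namespace Pool.Agent.R235.DS

/-- density of the measure representing `∫_0^r ∫_{D_t} a dt/t` -/
noncomputable def mm (a : ℂ → ℝ) (p : ℝ × ℂ) : ℝ := if ‖p.2‖ < p.1 then a p.2 / p.1 else 0

/-- the measure representing `∫_0^r ∫_{D_t} a dt/t` -/
noncomputable def kap (a : ℂ → ℝ) (r : ℝ) : Measure (ℝ × ℂ) :=
  (((volume : Measure ℝ).restrict (Ioc 0 r)).prod (volume : Measure ℂ)).withDensity
    fun p => ENNReal.ofReal (mm a p)

lemma measurable_mm {a : ℂ → ℝ} (ha : Measurable a) : Measurable (mm a) := by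
  unfold mm
  refine Measurable.ite ?_ ((ha.comp measurable_snd).div measurable_fst) measurable_const
  exact measurableSet_lt (measurable_snd.norm) measurable_fst

lemma mm_nonneg {a : ℂ → ℝ} (ha : ∀ z, 0 ≤ a z) (p : ℝ × ℂ) : 0 ≤ mm a p := by
  unfold mm
  split_ifs with h
  · exact div_nonneg (ha _) ((norm_nonneg _).trans h.le)
  · exact le_rfl

lemma inner_int (a φ : ℂ → ℝ) (t : ℝ) :
    ∫ z, mm a (t, z) * φ z = (∫ z in Metric.ball 0 t, φ z * a z) / t := by
  rw [← integral_indicator Metric.isOpen_ball.measurableSet, ← integral_div]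
  refine integral_congr_ae (Eventually.of_forall fun z => ?_)
  simp only [mm]
  by_cases h : ‖z‖ < t
  · rw [if_pos h, indicator_of_mem (by simpa using h)]; ring
  · rw [if_neg h, indicator_of_notMem (by simpa using h)]; ring

lemma integrable_mm {a φ : ℂ → ℝ} (ha : Continuous a) (ha0 : ∀ z, 0 ≤ a z) (hφ : Measurable φ)
    {B : ℝ} (hB : ∀ z, |φ z| ≤ B) (r : ℝ) :
    Integrable (fun p : ℝ × ℂ => mm a p * φ p.2)
      (((volume : Measure ℝ).restrict (Ioc 0 r)).prod (volume : Measure ℂ)) := by
  have hB0 : 0 ≤ B := (abs_nonneg _).trans (hB 0)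
  obtain ⟨M, hM⟩ := (isCompact_closedBall (0:ℂ) r).exists_bound_of_continuousOn ha.continuousOn
  have hmeas : Measurable (fun p : ℝ × ℂ => mm a p * φ p.2) :=
    (measurable_mm ha.measurable).mul (hφ.comp measurable_snd)
  have hbound : ∀ t ∈ Ioc (0:ℝ) r, ∀ z, ‖mm a (t, z) * φ z‖ ≤
      (Metric.ball (0:ℂ) t).indicator (fun _ => M * B / t) z := by
    intro t ht z
    simp only [mm]
    by_cases h : ‖z‖ < t
    · rw [if_pos h, indicator_of_mem (by simpa using h), norm_mul, norm_div, Real.norm_eq_abs,
        Real.norm_eq_abs, Real.norm_eq_abs, abs_of_pos ht.1]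
      have h1 : |a z| ≤ M := hM z (by simp; linarith [ht.2])
      have h2 := hB z
      have h3 : 0 ≤ M := (abs_nonneg _).trans h1
      rw [div_mul_eq_mul_div]
      have := ht.1
      gcongr
    · rw [if_neg h, indicator_of_notMem (by simpa using h)]; simp
  have hballint : ∀ t : ℝ, Integrable ((Metric.ball (0:ℂ) t).indicator (fun _ => M * B / t)) := by
    intro t
    rw [integrable_indicator_iff Metric.isOpen_ball.measurableSet]
    exact integrableOn_const measure_ball_lt_top.ne
  rw [integrable_prod_iff hmeas.aestronglyMeasurable]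
  constructor
  · rw [ae_restrict_iff' measurableSet_Ioc]
    refine Eventually.of_forall fun t ht => ?_
    refine (hballint t).mono' (hmeas.comp (measurable_prodMk_left)).aestronglyMeasurable ?_
    exact Eventually.of_forall fun z => hbound t ht z
  · have hg : IntegrableOn (fun _ : ℝ => |M| * B * Real.pi * r) (Ioc 0 r) :=
      integrableOn_const measure_Ioc_lt_top.ne
    refine Integrable.mono' hg (hmeas.aestronglyMeasurable.norm.integral_prod_right') ?_
    rw [ae_restrict_iff' measurableSet_Ioc]
    refine Eventually.of_forall fun t ht => ?_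
    rw [Real.norm_eq_abs, abs_of_nonneg (integral_nonneg fun z => norm_nonneg _)]
    calc ∫ z, ‖mm a (t, z) * φ z‖ ≤ ∫ z, (Metric.ball (0:ℂ) t).indicator (fun _ => M * B / t) z := by
          apply integral_mono_of_nonneg (Eventually.of_forall fun z => norm_nonneg _) (hballint t)
          exact Eventually.of_forall fun z => hbound t ht z
      _ = M * B * Real.pi * t := by
          rw [integral_indicator Metric.isOpen_ball.measurableSet, setIntegral_const]
          have hv : (volume : Measure ℂ).real (Metric.ball 0 t) = t ^ 2 * Real.pi := by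
            rw [Measure.real, Complex.volume_ball]
            simp [ENNReal.toReal_ofReal ht.1.le]
          rw [hv, smul_eq_mul]
          have := ht.1.ne'
          field_simp
      _ ≤ |M| * B * Real.pi * r := by
          have h1 := le_abs_self M
          have h2 := ht.1
          have h3 := ht.2
          have h4 := Real.pi_pos
          gcongr

/-- the measure `kap` computes iterated integrals -/
theorem integral_kap {a φ : ℂ → ℝ} (ha : Continuous a) (ha0 : ∀ z, 0 ≤ a z) (hφ : Measurable φ)
    {B : ℝ} (hB : ∀ z, |φ z| ≤ B) {r : ℝ} (hr : 0 ≤ r) :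
    Integrable (fun p : ℝ × ℂ => φ p.2) (kap a r) ∧ ∫ p, φ p.2 ∂(kap a r) =
      ∫ t in (0:ℝ)..r, (∫ z in Metric.ball 0 t, φ z * a z) / t := by
  have hm := measurable_mm ha.measurable
  have hI := integrable_mm ha ha0 hφ hB r
  constructor
  · unfold kap
    rw [integrable_withDensity_iff hm.ennreal_ofReal (Eventually.of_forall fun p => ENNReal.ofReal_lt_top)]
    refine hI.congr (Eventually.of_forall fun p => ?_)
    simp only
    rw [ENNReal.toReal_ofReal (mm_nonneg ha0 p), mul_comm]
  · unfold kap
    rw [integral_withDensity_eq_integral_toReal_smul hm.ennreal_ofReal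
      (Eventually.of_forall fun p => ENNReal.ofReal_lt_top)]
    have e : ∀ p : ℝ × ℂ, (ENNReal.ofReal (mm a p)).toReal • φ p.2 = mm a p * φ p.2 := by
      intro p
      rw [ENNReal.toReal_ofReal (mm_nonneg ha0 p), smul_eq_mul]
    simp only [e]
    rw [integral_prod _ hI, intervalIntegral.integral_of_le hr]
    refine integral_congr_ae (Eventually.of_forall fun t => ?_)
    exact inner_int a φ t

lemma kap_finite {a : ℂ → ℝ} (ha : Continuous a) (ha0 : ∀ z, 0 ≤ a z) (r : ℝ) :
    IsFiniteMeasure (kap a r) := by
  have hm := measurable_mm ha.measurable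
  have hI := integrable_mm (φ := fun _ => 1) ha ha0 measurable_const (B := 1) (by simp) r
  have h2 : Integrable (mm a) (((volume : Measure ℝ).restrict (Ioc 0 r)).prod (volume : Measure ℂ)) := by
    simpa using hI
  unfold kap
  exact isFiniteMeasure_withDensity_ofReal h2.2

/-- total mass -/
lemma kap_univ {a : ℂ → ℝ} (ha : Continuous a) (ha0 : ∀ z, 0 ≤ a z) {r : ℝ} (hr : 0 ≤ r) :
    ((kap a r) univ).toReal = ∫ t in (0:ℝ)..r, (∫ z in Metric.ball 0 t, a z) / t := by
  have h := (integral_kap (φ := fun _ => 1) ha ha0 measurable_const (B := 1) (by simp) hr).2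
  have h1 : ∫ p : ℝ × ℂ, (1:ℝ) ∂(kap a r) = ((kap a r) univ).toReal := by
    rw [integral_const, smul_eq_mul, mul_one]; rfl
  rw [h1] at h
  rw [h]
  simp only [one_mul]

end Pool.Agent.R235.DS
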