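import Pool.Agent.R235.DS.FS
import Pool.Agent.R235.BD.Lap

set_option autoImplicit false

open MeasureTheory Filter Topology Laplacian InnerProductSpace
open scoped ComplexConjugate ContDiff

namespace Pool.Agent.R235.DS

variable {ι : Type*} [Fintype ι]

lemma second_dir {u : ℂ → ℝ} (hu : ContDiff ℝ 2 u) (z : ℂ) (v : ℂ) :
    iteratedFDeriv ℝ 2 u z ![v, v] = fderiv ℝ (fun y => fderiv ℝ u y v) z v := by
  have h1 : DifferentiableAt ℝ (fderiv ℝ u) z :=
    (hu.fderiv_right (m := 1) (by norm_num)).differentiable (by norm_num) z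
  rw [iteratedFDeriv_two_apply, fderiv_clm_apply h1 (differentiableAt_const _)]
  simp

section curve
variable {H D D2 : ℂ → ι → ℂ}

lemma line_nsq (hH : ∀ i z, HasDerivAt (fun w => H w i) (D z i) z) (z v : ℂ) :
    HasDerivAt (fun t : ℝ => nsq (H (z + t * v))) (2 * (ip (D z) (H z) * v).re) 0 := by
  have hden : HasDerivAt (fun t : ℝ => (nsq (H (z + t * v)) : ℂ))
      (∑ i, (D z i * v * conj (H z i) + H z i * conj (D z i * v))) 0 := by
    simp only [nsq_coe]
    have := HasDerivAt.fun_sum (u := Finset.univ) (fun i _ => (line_deriv hH z v i).mul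
      (line_deriv_conj hH z v i))
    simpa using this
  have hB : ∑ i, (D z i * v * conj (H z i) + H z i * conj (D z i * v)) =
      ip (D z) (H z) * v + conj (ip (D z) (H z) * v) := by
    rw [Finset.sum_add_distrib]
    unfold ip
    rw [Finset.sum_mul, map_sum]
    congr 1
    · refine Finset.sum_congr rfl fun i _ => ?_
      ring
    · refine Finset.sum_congr rfl fun i _ => ?_
      simp only [map_mul, Complex.conj_conj]
      ring
  rw [hB] at hden
  have h := Complex.reCLM.hasFDerivAt.comp_hasDerivAt (0 : ℝ) hden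
  have e : (Complex.reCLM (ip (D z) (H z) * v + conj (ip (D z) (H z) * v))) =
      2 * (ip (D z) (H z) * v).re := by
    simp only [Complex.reCLM_apply, Complex.add_re, Complex.conj_re]; ring
  rw [e] at h
  exact h

lemma line_ip (hH : ∀ i z, HasDerivAt (fun w => H w i) (D z i) z)
    (hD : ∀ i z, HasDerivAt (fun w => D w i) (D2 z i) z) (z v : ℂ) :
    HasDerivAt (fun t : ℝ => ip (D (z + t * v)) (H (z + t * v)))
      (ip (D2 z) (H z) * v + nsq (D z) * conj v) 0 := by
  have := HasDerivAt.fun_sum (u := Finset.univ) (fun i _ => (line_deriv hD z v i).mul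
      (line_deriv_conj hH z v i))
  have h2 : HasDerivAt (fun t : ℝ => ip (D (z + t * v)) (H (z + t * v)))
      (∑ i, (D2 z i * v * conj (H z i) + D z i * conj (D z i * v))) 0 := by
    simpa [ip] using this
  refine h2.congr_deriv ?_
  rw [Finset.sum_add_distrib, nsq_coe]
  unfold ip
  rw [Finset.sum_mul, Finset.sum_mul]
  congr 1
  · refine Finset.sum_congr rfl fun i _ => ?_
    ring
  · refine Finset.sum_congr rfl fun i _ => ?_
    simp only [map_mul]
    ring

lemma contDiff_H (hH : ∀ i z, HasDerivAt (fun w => H w i) (D z i) z) (i : ι) {n : WithTop ℕ∞} :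
    ContDiff ℝ n (fun w => H w i) := by
  have h1 : Differentiable ℂ (fun w => H w i) := fun z => (hH i z).differentiableAt
  exact (h1.contDiff (n := n)).restrict_scalars ℝ

lemma contDiff_nsq (hH : ∀ i z, HasDerivAt (fun w => H w i) (D z i) z) {n : WithTop ℕ∞} :
    ContDiff ℝ n (fun w => nsq (H w)) := by
  unfold nsq
  exact ContDiff.sum fun i _ => (contDiff_H hH i).norm_sq ℝ

lemma contDiff_log_nsq (hH : ∀ i z, HasDerivAt (fun w => H w i) (D z i) z)
    (hne : ∀ z, H z ≠ 0) {n : WithTop ℕ∞} :
    ContDiff ℝ n (fun w => Real.log (nsq (H w))) :=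
  (contDiff_nsq hH).log fun z => (nsq_pos (hne z)).ne'

lemma line_comp {u : ℂ → ℝ} {z : ℂ} (hu : DifferentiableAt ℝ u z) (v : ℂ) {c : ℝ}
    (h : HasDerivAt (fun t : ℝ => u (z + t * v)) c 0) : fderiv ℝ u z v = c := by
  have h1 : HasDerivAt (fun t : ℝ => z + (t : ℂ) * v) v 0 := by
    have := ((Complex.ofRealCLM.hasDerivAt (x := (0 : ℝ))).mul_const v).const_add z
    simpa using this
  have hd' : HasFDerivAt u (fderiv ℝ u z) ((fun t : ℝ => z + (t : ℂ) * v) 0) := by
    simpa using hu.hasFDerivAt
  exact (hd'.comp_hasDerivAt (0 : ℝ) h1).unique h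

lemma fderiv_log_nsq (hH : ∀ i z, HasDerivAt (fun w => H w i) (D z i) z)
    (hne : ∀ z, H z ≠ 0) (z v : ℂ) :
    fderiv ℝ (fun w => Real.log (nsq (H w))) z v =
      2 * (ip (D z) (H z) * v).re / nsq (H z) := by
  apply line_comp ((contDiff_log_nsq hH hne (n := 1)).differentiable (by norm_num) z)
  have h1 := line_nsq hH z v
  have h2 := h1.log (by simpa using (nsq_pos (hne z)).ne')
  simpa using h2

theorem laplacian_log_nsq (hH : ∀ i z, HasDerivAt (fun w => H w i) (D z i) z)
    (hD : ∀ i z, HasDerivAt (fun w => D w i) (D2 z i) z)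
    (hne : ∀ z, H z ≠ 0) (z : ℂ) :
    Δ (fun w => Real.log (nsq (H w))) z = 4 * dens (H z) (D z) := by
  have hu : ContDiff ℝ 2 (fun w => Real.log (nsq (H w))) := contDiff_log_nsq hH hne
  have hN : nsq (H z) ≠ 0 := (nsq_pos (hne z)).ne'
  have key : ∀ v : ℂ, iteratedFDeriv ℝ 2 (fun w => Real.log (nsq (H w))) z ![v, v] =
      (2 * ((ip (D2 z) (H z) * v + nsq (D z) * conj v) * v).re * nsq (H z) -
        2 * (ip (D z) (H z) * v).re * (2 * (ip (D z) (H z) * v).re)) / nsq (H z) ^ 2 := by
    intro v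
    rw [second_dir hu]
    simp only [fderiv_log_nsq hH hne]
    apply line_comp
    · have h1 : DifferentiableAt ℝ (fun y => fderiv ℝ (fun w => Real.log (nsq (H w))) y v) z :=
        ((hu.fderiv_right (m := 1) (by norm_num)).clm_apply contDiff_const).differentiable
          (by norm_num) z
      simpa only [fderiv_log_nsq hH hne] using h1
    · have h1 := line_nsq hH z v
      have h2 := (line_ip hH hD z v).mul_const v
      have h3 := (Complex.reCLM.hasFDerivAt.comp_hasDerivAt (0 : ℝ) h2).const_mul (2 : ℝ)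
      have h4 := h3.div h1 (by simpa using hN)
      have h5 : HasDerivAt (fun t : ℝ => 2 * (ip (D (z + t * v)) (H (z + t * v)) * v).re /
        nsq (H (z + t * v))) _ 0 := h4
      refine h5.congr_deriv ?_
      simp
  rw [laplacian_eq_iteratedFDeriv_complexPlane]
  simp only [key]
  unfold dens
  rw [nsq_kk _ (hne z)]
  have hB : ‖ip (D z) (H z)‖ ^ 2 = (ip (D z) (H z)).re ^ 2 + (ip (D z) (H z)).im ^ 2 := by
    rw [Complex.sq_norm, Complex.normSq_apply]; ring
  rw [hB]
  simp only [Complex.add_re, Complex.mul_re, Complex.mul_im, Complex.add_im, Complex.conj_re,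
    Complex.conj_im, Complex.I_re, Complex.I_im, Complex.one_re, Complex.one_im,
    Complex.ofReal_re, Complex.ofReal_im]
  field_simp
  ring

end curve

end Pool.Agent.R235.DS
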