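import Pool.Agent.R235.DS.Curve2

set_option autoImplicit false

open MeasureTheory Filter Topology Set Matrix
open scoped ComplexConjugate ContDiff

namespace Pool.Agent.R235.DS

/-- the Segre tensor from `(v, g, x, w)` -/
noncomputable def ten (v g : Fin 3 → ℂ) (x w : ℂ) : Idx → ℂ := fun i =>
  v i.1 * g i.2.1 * (if i.2.2.1 then x * (g i.2.2.2.1 * g i.2.2.2.2.1 * g i.2.2.2.2.2)
      else w * (v i.2.2.2.1 * v i.2.2.2.2.1 * v i.2.2.2.2.2))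

lemma seg_eq_ten (d : Dat) : d.seg = ten d.v d.G d.x d.W := rfl

lemma nsq_cube (A : Fin 3 → ℂ) (c : ℂ) :
    ∑ x : Fin 3 × Fin 3 × Fin 3, ‖c * (A x.1 * A x.2.1 * A x.2.2)‖ ^ 2 = ‖c‖ ^ 2 * nsq A ^ 3 := by
  have := nsq_tensor (α := Fin 3) (β := Fin 3 × Fin 3) A (fun q => A q.1 * A q.2)
  rw [nsq_tensor] at this
  have e : ∀ x : Fin 3 × Fin 3 × Fin 3, ‖c * (A x.1 * A x.2.1 * A x.2.2)‖ ^ 2 =
    ‖c‖ ^ 2 * ‖A x.1 * (A x.2.1 * A x.2.2)‖ ^ 2 := by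
    intro x
    rw [norm_mul, mul_pow, mul_assoc (A x.1)]
  simp only [e]
  rw [← Finset.mul_sum]
  unfold nsq at this ⊢
  rw [this]
  ring

lemma nsq_ten (v g : Fin 3 → ℂ) (x w : ℂ) :
    nsq (ten v g x w) = nsq v * (nsq g * (‖x‖ ^ 2 * nsq g ^ 3 + ‖w‖ ^ 2 * nsq v ^ 3)) := by
  have e : ten v g x w = fun p : Fin 3 × Fin 3 × Bool × Fin 3 × Fin 3 × Fin 3 =>
      v p.1 * (fun q : Fin 3 × Bool × Fin 3 × Fin 3 × Fin 3 => g q.1 *
        (fun i : Bool × Fin 3 × Fin 3 × Fin 3 => if i.1 then x * (g i.2.1 * g i.2.2.1 * g i.2.2.2)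
          else w * (v i.2.1 * v i.2.2.1 * v i.2.2.2)) q.2) p.2 := by
    funext p; unfold ten; simp only; ring
  rw [e, nsq_tensor v (fun q : Fin 3 × Bool × Fin 3 × Fin 3 × Fin 3 => g q.1 *
        (fun i : Bool × Fin 3 × Fin 3 × Fin 3 => if i.1 then x * (g i.2.1 * g i.2.2.1 * g i.2.2.2)
          else w * (v i.2.1 * v i.2.2.1 * v i.2.2.2)) q.2),
    nsq_tensor g (fun i : Bool × Fin 3 × Fin 3 × Fin 3 => if i.1 then
        x * (g i.2.1 * g i.2.2.1 * g i.2.2.2) else w * (v i.2.1 * v i.2.2.1 * v i.2.2.2))]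
  congr 2
  unfold nsq
  rw [Fintype.sum_prod_type, Fintype.sum_bool]
  simp only [if_true, Bool.false_eq_true, if_false]
  have h1 := nsq_cube g x
  have h2 := nsq_cube v w
  rw [h1, h2]
  rfl

lemma pr_smul {ι : Type*} [Fintype ι] (H : ι → ℂ) {c : ℂ} (hc : c ≠ 0) : pr (c • H) = pr H := by
  funext p
  unfold pr
  have h1 : (nsq (c • H) : ℂ) = c * conj c * (nsq H : ℂ) := by
    rw [nsq_coe, nsq_coe, Finset.mul_sum]
    refine Finset.sum_congr rfl fun i _ => ?_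
    simp only [Pi.smul_apply, smul_eq_mul, map_mul]; ring
  rw [h1]
  simp only [Pi.smul_apply, smul_eq_mul, map_mul]
  have hcc : conj c ≠ 0 := by simpa using hc
  by_cases hN : (nsq H : ℂ) = 0
  · rw [hN]; simp
  · field_simp

lemma ten_scale (v g : Fin 3 → ℂ) (x w a b c : ℂ) :
    ten (a • v) (b • g) (c * a ^ 3 * x) (c * b ^ 3 * w) = (a * b * (c * a ^ 3 * b ^ 3)) • ten v g x w := by
  funext i
  unfold ten
  simp only [Pi.smul_apply, smul_eq_mul]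
  split_ifs <;> ring

/-- the compact parameter space -/
def Cpar : Set ((Fin 3 → ℂ) × (Fin 3 → ℂ) × ℂ × ℂ) :=
  {p | nsq p.1 = 1 ∧ nsq p.2.1 = 1 ∧ p.1 ⬝ᵥ p.2.1 = 0 ∧ ‖p.2.2.1‖ ^ 2 + ‖p.2.2.2‖ ^ 2 = 1}

lemma continuous_nsq {ι : Type*} [Fintype ι] : Continuous (nsq : (ι → ℂ) → ℝ) := by
  unfold nsq
  fun_prop

lemma isCompact_Cpar : IsCompact Cpar := by
  have hclosed : IsClosed Cpar := by
    have h1 : IsClosed {p : (Fin 3 → ℂ) × (Fin 3 → ℂ) × ℂ × ℂ | nsq p.1 = 1} :=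
      isClosed_eq (continuous_nsq.comp continuous_fst) continuous_const
    have h2 : IsClosed {p : (Fin 3 → ℂ) × (Fin 3 → ℂ) × ℂ × ℂ | nsq p.2.1 = 1} :=
      isClosed_eq (continuous_nsq.comp (continuous_fst.comp continuous_snd)) continuous_const
    have h3 : IsClosed {p : (Fin 3 → ℂ) × (Fin 3 → ℂ) × ℂ × ℂ | p.1 ⬝ᵥ p.2.1 = 0} := by
      refine isClosed_eq ?_ continuous_const
      unfold dotProduct
      fun_prop
    have h4 : IsClosed {p : (Fin 3 → ℂ) × (Fin 3 → ℂ) × ℂ × ℂ | ‖p.2.2.1‖ ^ 2 + ‖p.2.2.2‖ ^ 2 = 1} :=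
      isClosed_eq (by fun_prop) continuous_const
    exact h1.inter (h2.inter (h3.inter h4))
  refine Metric.isCompact_of_isClosed_isBounded hclosed ?_
  refine (Metric.isBounded_closedBall (x := (0 : (Fin 3 → ℂ) × (Fin 3 → ℂ) × ℂ × ℂ)) (r := 1)).subset ?_
  rintro ⟨v, g, x, w⟩ ⟨h1, h2, _, h4⟩
  simp only at h1 h2 h4
  have hle : ∀ A : Fin 3 → ℂ, nsq A = 1 → ‖A‖ ≤ 1 := by
    intro A hA
    rw [pi_norm_le_iff_of_nonneg zero_le_one]
    intro i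
    have := norm_sq_le_nsq A i
    rw [hA] at this
    nlinarith [norm_nonneg (A i)]
  rw [mem_closedBall_zero_iff, Prod.norm_def, Prod.norm_def, Prod.norm_def]
  refine max_le (hle v h1) (max_le (hle g h2) (max_le ?_ ?_))
  · change ‖x‖ ≤ 1
    nlinarith [norm_nonneg x, sq_nonneg ‖w‖]
  · change ‖w‖ ≤ 1
    nlinarith [norm_nonneg w, sq_nonneg ‖x‖]

/-- parametrization -/
noncomputable def Psi (p : (Fin 3 → ℂ) × (Fin 3 → ℂ) × ℂ × ℂ) : Idx × Idx → ℂ :=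
  fun q => ten p.1 p.2.1 p.2.2.1 p.2.2.2 q.1 * conj (ten p.1 p.2.1 p.2.2.1 p.2.2.2 q.2)

lemma continuous_Psi : Continuous Psi := by
  have h : ∀ i : Idx, Continuous fun p : (Fin 3 → ℂ) × (Fin 3 → ℂ) × ℂ × ℂ =>
      ten p.1 p.2.1 p.2.2.1 p.2.2.2 i := by
    intro i
    unfold ten
    split_ifs <;> fun_prop
  refine continuous_pi fun q => ?_
  exact (h q.1).mul (Complex.continuous_conj.comp (h q.2))

lemma Psi_eq_pr {p : (Fin 3 → ℂ) × (Fin 3 → ℂ) × ℂ × ℂ} (hp : p ∈ Cpar) :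
    Psi p = pr (ten p.1 p.2.1 p.2.2.1 p.2.2.2) := by
  obtain ⟨h1, h2, _, h4⟩ := hp
  funext q
  unfold Psi pr
  rw [nsq_ten, h1, h2]
  have : (1 : ℝ) * (1 * (‖p.2.2.1‖ ^ 2 * 1 ^ 3 + ‖p.2.2.2‖ ^ 2 * 1 ^ 3)) = 1 := by
    rw [one_pow, mul_one, mul_one, h4]; norm_num
  rw [this]; simp

lemma cross_aux (v g : Fin 3 → ℂ) (hv : nsq v = 1) (hvg : v ⬝ᵥ g = 0) :
    crossProduct v (crossProduct g (fun i => conj (v i))) = g := by
  have h1 : v 0 * conj (v 0) + v 1 * conj (v 1) + v 2 * conj (v 2) = 1 := by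
    have := nsq_coe v
    rw [hv, Fin.sum_univ_three] at this
    rw [← this]; simp
  have h2 : v 0 * g 0 + v 1 * g 1 + v 2 * g 2 = 0 := by
    rw [dotProduct, Fin.sum_univ_three] at hvg
    exact hvg
  ext i
  fin_cases i
  · simp [crossProduct]
    linear_combination g 0 * h1 - conj (v 0) * h2
  · simp [crossProduct]
    linear_combination g 1 * h1 - conj (v 1) * h2
  · simp [crossProduct]
    linear_combination g 2 * h1 - conj (v 2) * h2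

lemma X2_eq : X2 = Psi '' Cpar := by
  ext P
  constructor
  · rintro ⟨d, ⟨hG, hxW⟩, rfl⟩
    have hv : d.v ≠ 0 := by
      intro h
      apply hG
      unfold Dat.G
      rw [h]; simp
    have hNv : 0 < nsq d.v := nsq_pos hv
    have hNG : 0 < nsq d.G := nsq_pos hG
    set a := Real.sqrt (nsq d.v) with ha
    set b := Real.sqrt (nsq d.G) with hb
    have ha0 : 0 < a := Real.sqrt_pos.mpr hNv
    have hb0 : 0 < b := Real.sqrt_pos.mpr hNG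
    have haa : a ^ 2 = nsq d.v := Real.sq_sqrt hNv.le
    have hbb : b ^ 2 = nsq d.G := Real.sq_sqrt hNG.le
    set ρ := Real.sqrt (‖d.x‖ ^ 2 * b ^ 6 + ‖d.W‖ ^ 2 * a ^ 6) with hρ
    have hin : 0 < ‖d.x‖ ^ 2 * b ^ 6 + ‖d.W‖ ^ 2 * a ^ 6 := by
      rcases hxW with h | h
      · have := norm_pos_iff.mpr h
        have h2 : 0 ≤ ‖d.W‖ ^ 2 * a ^ 6 := by positivity
        positivity
      · have := norm_pos_iff.mpr h
        have h2 : 0 ≤ ‖d.x‖ ^ 2 * b ^ 6 := by positivity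
        positivity
    have hρ0 : 0 < ρ := Real.sqrt_pos.mpr hin
    have hρρ : ρ ^ 2 = ‖d.x‖ ^ 2 * b ^ 6 + ‖d.W‖ ^ 2 * a ^ 6 := Real.sq_sqrt hin.le
    have hac : (a : ℂ) ≠ 0 := by exact_mod_cast ha0.ne'
    have hbc : (b : ℂ) ≠ 0 := by exact_mod_cast hb0.ne'
    have hρc : (ρ : ℂ) ≠ 0 := by exact_mod_cast hρ0.ne'
    let p : (Fin 3 → ℂ) × (Fin 3 → ℂ) × ℂ × ℂ :=
      ((a : ℂ)⁻¹ • d.v, (b : ℂ)⁻¹ • d.G, (b : ℂ) ^ 3 / ρ * d.x, (a : ℂ) ^ 3 / ρ * d.W)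
    have hsc : ∀ (A : Fin 3 → ℂ) (c : ℝ), nsq ((c : ℂ) • A) = c ^ 2 * nsq A := by
      intro A c
      unfold nsq
      rw [Finset.mul_sum]
      refine Finset.sum_congr rfl fun i _ => ?_
      simp only [Pi.smul_apply, smul_eq_mul, norm_mul, Complex.norm_real, Real.norm_eq_abs,
        mul_pow, sq_abs]
    have hp : p ∈ Cpar := by
      refine ⟨?_, ?_, ?_, ?_⟩
      · change nsq ((a : ℂ)⁻¹ • d.v) = 1
        rw [← Complex.ofReal_inv, hsc, ← haa, ← mul_pow, inv_mul_cancel₀ ha0.ne', one_pow]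
      · change nsq ((b : ℂ)⁻¹ • d.G) = 1
        rw [← Complex.ofReal_inv, hsc, ← hbb, ← mul_pow, inv_mul_cancel₀ hb0.ne', one_pow]
      · change ((a : ℂ)⁻¹ • d.v) ⬝ᵥ ((b : ℂ)⁻¹ • d.G) = 0
        rw [smul_dotProduct, dotProduct_smul]
        have : d.v ⬝ᵥ d.G = 0 := by unfold Dat.G; exact dot_self_cross _ _
        rw [this]; simp
      · change ‖(b : ℂ) ^ 3 / ρ * d.x‖ ^ 2 + ‖(a : ℂ) ^ 3 / ρ * d.W‖ ^ 2 = 1
        simp only [norm_mul, norm_div, norm_pow, Complex.norm_real, Real.norm_eq_abs, abs_of_pos ha0,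
          abs_of_pos hb0, abs_of_pos hρ0]
        have : (b ^ 3 / ρ * ‖d.x‖) ^ 2 + (a ^ 3 / ρ * ‖d.W‖) ^ 2 =
          (‖d.x‖ ^ 2 * b ^ 6 + ‖d.W‖ ^ 2 * a ^ 6) / ρ ^ 2 := by field_simp
        rw [this, hρρ, div_self hin.ne']
    refine ⟨p, hp, ?_⟩
    rw [Psi_eq_pr hp]
    unfold Dat.pt
    rw [seg_eq_ten]
    have h1 := ten_scale d.v d.G d.x d.W (a : ℂ)⁻¹ (b : ℂ)⁻¹ ((a : ℂ) ^ 3 * (b : ℂ) ^ 3 / ρ)
    have e1 : (a : ℂ) ^ 3 * (b : ℂ) ^ 3 / ρ * ((a : ℂ)⁻¹) ^ 3 * d.x = (b : ℂ) ^ 3 / ρ * d.x := by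
      field_simp
    have e2 : (a : ℂ) ^ 3 * (b : ℂ) ^ 3 / ρ * ((b : ℂ)⁻¹) ^ 3 * d.W = (a : ℂ) ^ 3 / ρ * d.W := by
      field_simp
    rw [e1, e2] at h1
    change pr (ten ((a : ℂ)⁻¹ • d.v) ((b : ℂ)⁻¹ • d.G) ((b : ℂ) ^ 3 / ρ * d.x) ((a : ℂ) ^ 3 / ρ * d.W)) = _
    rw [h1]
    apply pr_smul
    simp only [ne_eq, mul_eq_zero, div_eq_zero_iff, inv_eq_zero, pow_eq_zero_iff, not_or, OfNat.ofNat_ne_zero, not_false_eq_true]
    refine ⟨⟨hac, hbc⟩, ?_⟩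
    simp [hac, hbc, hρc]
  · rintro ⟨⟨v, g, x, w⟩, hp, rfl⟩
    have hp' := hp
    obtain ⟨h1, h2, h3, h4⟩ := hp
    simp only at h1 h2 h3 h4
    let d : Dat := ⟨v, crossProduct g (fun i => conj (v i)), x, fun i => w * conj (g i)⟩
    have hG : d.G = g := cross_aux v g h1 h3
    have hW : d.W = w := by
      unfold Dat.W
      rw [hG]
      change (fun i => w * conj (g i)) ⬝ᵥ g = w
      have h5 := nsq_coe g
      rw [h2] at h5
      have : (fun i => w * conj (g i)) ⬝ᵥ g = w * ∑ i, g i * conj (g i) := by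
        rw [dotProduct, Finset.mul_sum]
        refine Finset.sum_congr rfl fun i _ => by ring
      rw [this, ← h5]; simp
    refine ⟨d, ⟨?_, ?_⟩, ?_⟩
    · rw [hG]
      rintro rfl
      simp [nsq] at h2
    · rw [hW]
      by_contra hcon
      push Not at hcon
      obtain ⟨hx, hw⟩ := hcon
      have hx' : x = 0 := hx
      rw [hx', hw] at h4
      simp at h4
    · rw [Psi_eq_pr hp']
      unfold Dat.pt
      rw [seg_eq_ten, hG, hW]

theorem isCompact_X2 : IsCompact X2 := by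
  rw [X2_eq]; exact isCompact_Cpar.image continuous_Psi

end Pool.Agent.R235.DS
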