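import Pool.Agent.R235.DS.Vol
import Pool.Agent.R235.DS.Space
import Pool.Agent.R235.DS.Kap

set_option autoImplicit false

open MeasureTheory Filter Topology Set
open scoped ComplexConjugate ContDiff

namespace Pool.Agent.R235.DS

/-- ambient space -/
abbrev EE : Type := Idx × Idx → ℂ

lemma hseg (i : Idx) (z : ℂ) : HasDerivAt (fun w => seg w i) (dH seg z i) z :=
  hasDerivAt_dH diff_seg i z

lemma fTwo_eq : fTwo = fun z => pr (seg z) := rfl

/-- the density -/
noncomputable def aa (z : ℂ) : ℝ := den seg z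

lemma aa_nonneg (z : ℂ) : 0 ≤ aa z := den_nonneg _ _
lemma continuous_aa : Continuous aa := continuous_den diff_seg seg_ne

noncomputable def gx (z : ℂ) : EE := fderiv ℝ fTwo z 1
noncomputable def gy (z : ℂ) : EE := fderiv ℝ fTwo z Complex.I

lemma fs_gamma (z : ℂ) : fs (fTwo z) (gx z) (gy z) = aa z := fs_pr hseg seg_ne z

lemma norm_fderiv_le (z v : ℂ) : ‖fderiv ℝ fTwo z v‖ ≤ 2 * ‖v‖ * Real.sqrt (aa z) :=
  norm_fderiv_pr_le hseg seg_ne z v

lemma norm_gx (z : ℂ) : ‖gx z‖ ≤ 2 * Real.sqrt (aa z) := by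
  have := norm_fderiv_le z 1
  rw [norm_one, mul_one] at this
  exact this

lemma norm_gy (z : ℂ) : ‖gy z‖ ≤ 2 * Real.sqrt (aa z) := by
  have := norm_fderiv_le z Complex.I
  rw [Complex.norm_I, mul_one] at this
  exact this

lemma contDiff_fTwo {n : WithTop ℕ∞} : ContDiff ℝ n fTwo := by
  rw [fTwo_eq, contDiff_pi]
  intro p
  have h1 : ∀ i, ContDiff ℝ n (fun w => seg w i) := fun i => contDiff_H hseg i
  have h2 : ∀ i, ContDiff ℝ n (fun w => conj (seg w i)) := fun i =>
    Complex.conjCLE.contDiff.comp (h1 i)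
  have h3 : ContDiff ℝ n (fun w => (nsq (seg w) : ℂ)) :=
    Complex.ofRealCLM.contDiff.comp (contDiff_nsq hseg)
  have h4 : ∀ w, (nsq (seg w) : ℂ) ≠ 0 := fun w => by exact_mod_cast (nsq_pos (seg_ne w)).ne'
  have h5 : ContDiff ℝ n (fun w => (nsq (seg w) : ℂ)⁻¹) := h3.inv h4
  unfold pr
  simp only [div_eq_mul_inv]
  exact ((h1 _).mul (h2 _)).mul h5

lemma continuous_fTwo : Continuous fTwo := (contDiff_fTwo (n := 0)).continuous

lemma continuous_gx : Continuous gx :=
  ((contDiff_fTwo (n := 1)).continuous_fderiv (by norm_num)).clm_apply continuous_const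
lemma continuous_gy : Continuous gy :=
  ((contDiff_fTwo (n := 1)).continuous_fderiv (by norm_num)).clm_apply continuous_const

noncomputable def ux (z : ℂ) : EE := (Real.sqrt (aa z))⁻¹ • gx z
noncomputable def uy (z : ℂ) : EE := (Real.sqrt (aa z))⁻¹ • gy z

lemma norm_u_le {w : EE} {a : ℝ} (ha : 0 ≤ a) (h : ‖w‖ ≤ 2 * a) : ‖a⁻¹ • w‖ ≤ 2 := by
  rw [norm_smul, norm_inv, Real.norm_eq_abs, abs_of_nonneg ha]
  rcases ha.eq_or_lt with h0 | h0
  · rw [← h0]; simp
  · rw [inv_mul_le_iff₀ h0]; linarith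

lemma norm_ux (z : ℂ) : ‖ux z‖ ≤ 2 := norm_u_le (Real.sqrt_nonneg _) (norm_gx z)
lemma norm_uy (z : ℂ) : ‖uy z‖ ≤ 2 := norm_u_le (Real.sqrt_nonneg _) (norm_gy z)

lemma measurable_ux : Measurable ux :=
  (Real.continuous_sqrt.measurable.comp continuous_aa.measurable).inv.smul continuous_gx.measurable
lemma measurable_uy : Measurable uy :=
  (Real.continuous_sqrt.measurable.comp continuous_aa.measurable).inv.smul continuous_gy.measurable

lemma sqrt_smul_u {w : EE} {a : ℝ} (h : ‖w‖ ≤ 2 * a) : a • (a⁻¹ • w) = w := by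
  by_cases h0 : a = 0
  · rw [h0, mul_zero] at h
    have : w = 0 := norm_le_zero_iff.mp h
    rw [this]; simp
  · rw [smul_smul, mul_inv_cancel₀ h0, one_smul]

lemma gx_eq (z : ℂ) : Real.sqrt (aa z) • ux z = gx z := sqrt_smul_u (norm_gx z)
lemma gy_eq (z : ℂ) : Real.sqrt (aa z) • uy z = gy z := sqrt_smul_u (norm_gy z)

lemma form_smul {α : EE → EE → EE → ℝ} (h : IsForm2 α) (P A B : EE) (a : ℝ) :
    α P (a • A) (a • B) = a ^ 2 * α P A B := by
  rw [h.smul_left, h.alt P A, h.smul_left, h.alt P B]; ring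

lemma form_gamma {α : EE → EE → EE → ℝ} (h : IsForm2 α) (z : ℂ) :
    α (fTwo z) (gx z) (gy z) = α (fTwo z) (ux z) (uy z) * aa z := by
  rw [← gx_eq, ← gy_eq, form_smul h, Real.sq_sqrt (aa_nonneg z)]; ring

/-- the compact set carrying the curve and its normalized velocities -/
def ZZ : Set (EE × EE × EE) :=
  X2 ×ˢ (Metric.closedBall (0 : EE) 2 ×ˢ Metric.closedBall (0 : EE) 2)

lemma isCompact_ZZ : IsCompact ZZ :=
  isCompact_X2.prod ((isCompact_closedBall _ _).prod (isCompact_closedBall _ _))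

lemma fTwo_mem (z : ℂ) : fTwo z ∈ X2 := ⟨lift2 Fcurve z, lift_ok z, rfl⟩

lemma phi_mem (z : ℂ) : (fTwo z, ux z, uy z) ∈ ZZ :=
  ⟨fTwo_mem z, by simpa using norm_ux z, by simpa using norm_uy z⟩

lemma measurable_phi : Measurable fun z => (fTwo z, ux z, uy z) :=
  continuous_fTwo.measurable.prodMk (measurable_ux.prodMk measurable_uy)

lemma imTr_add_left (P A B C : EE) : imTr P (A + B) C = imTr P A C + imTr P B C := by
  unfold imTr
  rw [← Complex.add_im]
  congr 1
  rw [← Finset.sum_add_distrib]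
  refine Finset.sum_congr rfl fun i _ => ?_
  rw [← Finset.sum_add_distrib]
  refine Finset.sum_congr rfl fun j _ => ?_
  rw [← Finset.sum_add_distrib]
  refine Finset.sum_congr rfl fun k _ => ?_
  simp only [Pi.add_apply]; ring

lemma imTr_add_right (P A B C : EE) : imTr P C (A + B) = imTr P C A + imTr P C B := by
  unfold imTr
  rw [← Complex.add_im]
  congr 1
  rw [← Finset.sum_add_distrib]
  refine Finset.sum_congr rfl fun i _ => ?_
  rw [← Finset.sum_add_distrib]
  refine Finset.sum_congr rfl fun j _ => ?_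
  rw [← Finset.sum_add_distrib]
  refine Finset.sum_congr rfl fun k _ => ?_
  simp only [Pi.add_apply]; ring

lemma imTr_smul_left (P A B : EE) (c : ℝ) : imTr P (c • A) B = c * imTr P A B := by
  unfold imTr
  have : ∑ i, ∑ j, ∑ k, P (i, j) * (c • A) (j, k) * B (k, i) =
      (c : ℂ) * ∑ i, ∑ j, ∑ k, P (i, j) * A (j, k) * B (k, i) := by
    rw [Finset.mul_sum]
    refine Finset.sum_congr rfl fun i _ => ?_
    rw [Finset.mul_sum]
    refine Finset.sum_congr rfl fun j _ => ?_
    rw [Finset.mul_sum]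
    refine Finset.sum_congr rfl fun k _ => ?_
    simp only [Pi.smul_apply, Complex.real_smul]; ring
  rw [this, Complex.im_ofReal_mul]

lemma imTr_smul_right (P A B : EE) (c : ℝ) : imTr P A (c • B) = c * imTr P A B := by
  unfold imTr
  have : ∑ i, ∑ j, ∑ k, P (i, j) * A (j, k) * (c • B) (k, i) =
      (c : ℂ) * ∑ i, ∑ j, ∑ k, P (i, j) * A (j, k) * B (k, i) := by
    rw [Finset.mul_sum]
    refine Finset.sum_congr rfl fun i _ => ?_
    rw [Finset.mul_sum]
    refine Finset.sum_congr rfl fun j _ => ?_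
    rw [Finset.mul_sum]
    refine Finset.sum_congr rfl fun k _ => ?_
    simp only [Pi.smul_apply, Complex.real_smul]; ring
  rw [this, Complex.im_ofReal_mul]

lemma continuous_imTr : Continuous fun p : EE × EE × EE => imTr p.1 p.2.1 p.2.2 := by
  unfold imTr
  have : Continuous fun p : EE × EE × EE =>
      ∑ i, ∑ j, ∑ k, p.1 (i, j) * p.2.1 (j, k) * p.2.2 (k, i) := by
    refine continuous_finsetSum _ fun i _ => continuous_finsetSum _ fun j _ =>
      continuous_finsetSum _ fun k _ => ?_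
    fun_prop
  exact Complex.continuous_im.comp this

lemma isForm2_fs : IsForm2 (fs : EE → EE → EE → ℝ) where
  continuous := by
    unfold fs
    refine (Continuous.sub continuous_imTr ?_).div_const 2
    exact continuous_imTr.comp (f := fun p : EE × EE × EE => (p.1, p.2.2, p.2.1)) (by fun_prop)
  add_left := by
    intro P A B C
    unfold fs
    rw [imTr_add_left, imTr_add_right]; ring
  smul_left := by
    intro P c A B
    unfold fs
    rw [imTr_smul_left, imTr_smul_right]; ring
  alt := by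
    intro P A B
    unfold fs
    ring

lemma isForm2_mul {α : EE → EE → EE → ℝ} (h : IsForm2 α) {k : EE → ℝ} (hk : Continuous k) :
    IsForm2 (fun P A B => k P * α P A B) where
  continuous := (hk.comp continuous_fst).mul h.continuous
  add_left := by intro P A B C; simp only [h.add_left]; ring
  smul_left := by intro P c A B; simp only [h.smul_left]; ring
  alt := by intro P A B; rw [h.alt]; ring

theorem borelTriple : BorelSpace (EE × EE × EE) := Prod.borelSpace

/-- bound of a form on the compact set -/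
lemma exists_form_bound {α : EE → EE → EE → ℝ} (h : IsForm2 α) :
    ∃ B : ℝ, ∀ z, |α (fTwo z) (ux z) (uy z)| ≤ B := by
  obtain ⟨B, hB⟩ := isCompact_ZZ.exists_bound_of_continuousOn h.continuous.continuousOn
  exact ⟨B, fun z => hB _ (phi_mem z)⟩

/-- The pairing with a form as an integral against `kap`. -/
lemma nev_eq {α : EE → EE → EE → ℝ} (h : IsForm2 α) {r : ℝ} (hr : 0 ≤ r) :
    nev fTwo α r = ∫ p : ℝ × ℂ, α (fTwo p.2) (ux p.2) (uy p.2) ∂(kap aa r) := by
  obtain ⟨B, hB⟩ := exists_form_bound h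
  have hborel := borelTriple
  have hm : Measurable fun z => α (fTwo z) (ux z) (uy z) := h.continuous.measurable.comp measurable_phi
  rw [(integral_kap continuous_aa aa_nonneg hm hB hr).2]
  unfold nev area
  have e : ∀ z, α (fTwo z) (fderiv ℝ fTwo z 1) (fderiv ℝ fTwo z Complex.I) =
    α (fTwo z) (ux z) (uy z) * aa z := form_gamma h
  simp only [e]

lemma nev_fs {r : ℝ} : nev fTwo fs r = ∫ t in (0:ℝ)..r, (∫ z in Metric.ball 0 t, aa z) / t := by
  unfold nev area
  have e : ∀ z, fs (fTwo z) (fderiv ℝ fTwo z 1) (fderiv ℝ fTwo z Complex.I) = aa z := fs_gamma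
  simp only [e]

lemma nev_fs_kap {r : ℝ} (hr : 0 ≤ r) : nev fTwo fs r = ((kap aa r) univ).toReal := by
  rw [nev_fs, kap_univ continuous_aa aa_nonneg hr]

lemma nev_mul_fs {k : EE → ℝ} {r : ℝ} : nev fTwo (fun P A B => k P * fs P A B) r =
    ∫ t in (0:ℝ)..r, (∫ z in Metric.ball 0 t, k (fTwo z) * aa z) / t := by
  unfold nev area
  have e : ∀ z, fs (fTwo z) (fderiv ℝ fTwo z 1) (fderiv ℝ fTwo z Complex.I) = aa z := fs_gamma
  simp only [e]

end Pool.Agent.R235.DS
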