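import Pool.Agent.R235.DS.Charge

set_option autoImplicit false

open MeasureTheory Filter Topology Set Matrix
open scoped ComplexConjugate ContDiff

namespace Pool.Agent.R235.DS

/-- the projector determines the vector up to a factor -/
lemma pr_inj {ι : Type*} [Fintype ι] {H K : ι → ℂ} (hH : H ≠ 0) (hK : K ≠ 0) (h : pr H = pr K) :
    ∃ c : ℂ, c ≠ 0 ∧ ∀ i, K i = c * H i := by
  obtain ⟨i0, hi0⟩ := Function.ne_iff.mp hH
  have hi0' : H i0 ≠ 0 := hi0
  have hN : (nsq H : ℂ) ≠ 0 := by exact_mod_cast (nsq_pos hH).ne'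
  have hN' : (nsq K : ℂ) ≠ 0 := by exact_mod_cast (nsq_pos hK).ne'
  have he : ∀ i, H i * conj (H i0) / (nsq H : ℂ) = K i * conj (K i0) / (nsq K : ℂ) := fun i =>
    congrFun h (i, i0)
  have hcH : conj (H i0) ≠ 0 := by simpa using hi0'
  have hK0 : conj (K i0) ≠ 0 := by
    intro h0
    have := he i0
    rw [h0, mul_zero, zero_div, div_eq_zero_iff, mul_eq_zero] at this
    rcases this with (h1 | h1) | h1
    · exact hi0' h1
    · exact hcH h1
    · exact hN h1
  refine ⟨conj (H i0) * nsq K / (nsq H * conj (K i0)), ?_, fun i => ?_⟩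
  · exact div_ne_zero (mul_ne_zero hcH hN') (mul_ne_zero hN hK0)
  · have := he i
    field_simp at this ⊢
    linear_combination -this

/-- the last factor of the tensor -/
noncomputable def wten (d : Dat) : Bool × Fin 3 × Fin 3 × Fin 3 → ℂ := fun i =>
  if i.1 then d.x * (d.G i.2.1 * d.G i.2.2.1 * d.G i.2.2.2)
      else d.W * (d.v i.2.1 * d.v i.2.2.1 * d.v i.2.2.2)

lemma seg_wten (d : Dat) (i j : Fin 3) (k : Bool × Fin 3 × Fin 3 × Fin 3) :
    d.seg (i, j, k) = d.v i * d.G j * wten d k := rfl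

lemma wten_ne {d : Dat} (hd : d.ok) : ∃ k, wten d k ≠ 0 := by
  obtain ⟨i0, hi0⟩ := Function.ne_iff.mp (v_ne_of_ok hd)
  obtain ⟨j0, hj0⟩ := Function.ne_iff.mp hd.1
  have hi0' : d.v i0 ≠ 0 := hi0
  have hj0' : d.G j0 ≠ 0 := hj0
  rcases hd.2 with h | h
  · refine ⟨(true, j0, j0, j0), ?_⟩
    simp only [wten, if_true]
    exact mul_ne_zero h (mul_ne_zero (mul_ne_zero hj0' hj0') hj0')
  · refine ⟨(false, i0, i0, i0), ?_⟩
    simp only [wten, Bool.false_eq_true, if_false]
    exact mul_ne_zero h (mul_ne_zero (mul_ne_zero hi0' hi0') hi0')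

lemma seg_ne_zero {d : Dat} (hd : d.ok) : d.seg ≠ 0 := by
  obtain ⟨i0, hi0⟩ := Function.ne_iff.mp (v_ne_of_ok hd)
  obtain ⟨j0, hj0⟩ := Function.ne_iff.mp hd.1
  obtain ⟨k0, hk0⟩ := wten_ne hd
  intro h
  have := congrFun h (i0, j0, k0)
  rw [seg_wten] at this
  exact mul_ne_zero (mul_ne_zero hi0 hj0) hk0 this

/-- splitting of proportional tensors -/
lemma tensor_split {α β : Type*} {A A' : α → ℂ} {B B' : β → ℂ} {c : ℂ} (hc : c ≠ 0)
    {i0 : α} {j0 : β} (hi0 : A i0 ≠ 0) (hj0 : B j0 ≠ 0)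
    (h : ∀ i j, A' i * B' j = c * (A i * B j)) :
    ∃ a b : ℂ, a ≠ 0 ∧ b ≠ 0 ∧ (∀ i, A' i = a * A i) ∧ (∀ j, B' j = b * B j) := by
  have h0 : A' i0 * B' j0 ≠ 0 := by
    rw [h]; exact mul_ne_zero hc (mul_ne_zero hi0 hj0)
  have hA : A' i0 ≠ 0 := left_ne_zero_of_mul h0
  have hB : B' j0 ≠ 0 := right_ne_zero_of_mul h0
  refine ⟨c * B j0 / B' j0, c * A i0 / A' i0, div_ne_zero (mul_ne_zero hc hj0) hB,
    div_ne_zero (mul_ne_zero hc hi0) hA, fun i => ?_, fun j => ?_⟩
  · have := h i j0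
    field_simp
    linear_combination this
  · have := h i0 j
    field_simp
    linear_combination this

lemma cross_dot_conj_ne {g : Fin 3 → ℂ} (hg : g ≠ 0) :
    g 0 * conj (g 0) + g 1 * conj (g 1) + g 2 * conj (g 2) ≠ 0 := by
  have := nsq_coe g
  rw [Fin.sum_univ_three] at this
  rw [← this]
  exact_mod_cast (nsq_pos hg).ne'

/-- a vector whose cross product with `v` vanishes is a multiple of `v` -/
lemma par_of_cross {v u : Fin 3 → ℂ} (hv : v ≠ 0) (h : crossProduct v u = 0) :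
    ∃ s : ℂ, u = s • v := by
  have hN := cross_dot_conj_ne hv
  have h0 := congrFun h 0
  have h1 := congrFun h 1
  have h2 := congrFun h 2
  simp [crossProduct] at h0 h1 h2
  refine ⟨(u 0 * conj (v 0) + u 1 * conj (v 1) + u 2 * conj (v 2)) /
    (v 0 * conj (v 0) + v 1 * conj (v 1) + v 2 * conj (v 2)), ?_⟩
  ext i
  rw [Pi.smul_apply, smul_eq_mul, div_mul_eq_mul_div, eq_div_iff hN]
  fin_cases i
  · simp only [Fin.zero_eta, Fin.isValue]
    linear_combination -conj (v 1) * h2 + conj (v 2) * h1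
  · simp only [Fin.mk_one, Fin.isValue]
    linear_combination conj (v 0) * h2 - conj (v 2) * h0
  · simp only [Fin.reduceFinMk, Fin.isValue]
    linear_combination -conj (v 0) * h1 + conj (v 1) * h0

/-- a vector orthogonal to `v × v'` lies in the span of `v, v'` -/
lemma span_of_dot {v v' u : Fin 3 → ℂ} (hG : crossProduct v v' ≠ 0)
    (h : u ⬝ᵥ crossProduct v v' = 0) : ∃ m n : ℂ, u = m • v + n • v' := by
  set g := crossProduct v v' with hg
  have hN := cross_dot_conj_ne hG
  have g0 : g 0 = v 1 * v' 2 - v 2 * v' 1 := by rw [hg]; simp [crossProduct]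
  have g1 : g 1 = v 2 * v' 0 - v 0 * v' 2 := by rw [hg]; simp [crossProduct]
  have g2 : g 2 = v 0 * v' 1 - v 1 * v' 0 := by rw [hg]; simp [crossProduct]
  rw [dotProduct, Fin.sum_univ_three] at h
  set w0 := conj (g 0)
  set w1 := conj (g 1)
  set w2 := conj (g 2)
  set N := g 0 * w0 + g 1 * w1 + g 2 * w2 with hNdef
  -- det(u, v', w) and det(v, u, w)
  refine ⟨(u 0 * (v' 1 * w2 - v' 2 * w1) + u 1 * (v' 2 * w0 - v' 0 * w2) +
    u 2 * (v' 0 * w1 - v' 1 * w0)) / N,
    (v 0 * (u 1 * w2 - u 2 * w1) + v 1 * (u 2 * w0 - u 0 * w2) +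
    v 2 * (u 0 * w1 - u 1 * w0)) / N, ?_⟩
  ext i
  rw [Pi.add_apply, Pi.smul_apply, Pi.smul_apply, smul_eq_mul, smul_eq_mul, div_mul_eq_mul_div,
    div_mul_eq_mul_div, ← add_div, eq_div_iff hN]
  rw [g0, g1, g2] at h
  rw [hNdef, g0, g1, g2]
  fin_cases i
  · simp only [Fin.zero_eta, Fin.isValue]
    linear_combination w0 * h
  · simp only [Fin.mk_one, Fin.isValue]
    linear_combination w1 * h
  · simp only [Fin.reduceFinMk, Fin.isValue]
    linear_combination w2 * h

lemma cross_smul_smul (a b s : ℂ) (v v' : Fin 3 → ℂ) :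
    crossProduct (a • v) (b • v' + s • v) = (a * b) • crossProduct v v' := by
  ext i
  fin_cases i <;> simp [crossProduct] <;> ring

lemma dot_cross_left (v v' : Fin 3 → ℂ) : v ⬝ᵥ crossProduct v v' = 0 := dot_self_cross v v'
lemma dot_cross_right (v v' : Fin 3 → ℂ) : v' ⬝ᵥ crossProduct v v' = 0 := dot_cross_self v v'

/-- Two data define the same point of the embedded space iff they are equivalent. -/
theorem pt_eq_iff {d e : Dat} (hd : d.ok) (he : e.ok) : d.pt = e.pt ↔ d.Same e := by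
  constructor
  · intro h
    obtain ⟨c0, hc0, hc⟩ := pr_inj (seg_ne_zero hd) (seg_ne_zero he) h
    obtain ⟨i0, hi0⟩ := Function.ne_iff.mp (v_ne_of_ok hd)
    obtain ⟨j0, hj0⟩ := Function.ne_iff.mp hd.1
    obtain ⟨k0, hk0⟩ := wten_ne hd
    have hi0' : d.v i0 ≠ 0 := hi0
    have hj0' : d.G j0 ≠ 0 := hj0
    obtain ⟨a, t, ha, ht, hav, htt⟩ := tensor_split (α := Fin 3)
      (β := Fin 3 × Bool × Fin 3 × Fin 3 × Fin 3) (A := d.v) (A' := e.v)
      (B := fun q => d.G q.1 * wten d q.2) (B' := fun q => e.G q.1 * wten e q.2) hc0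
      (i0 := i0) (j0 := (j0, k0)) hi0 (mul_ne_zero hj0' hk0) (fun i j => by
        have := hc (i, j.1, j.2)
        rw [seg_wten, seg_wten] at this
        linear_combination this)
    obtain ⟨g, κ, hg, hκ, hgG, hκw⟩ := tensor_split (A := d.G) (A' := e.G)
      (B := wten d) (B' := wten e) ht hj0 hk0 (fun i j => htt (i, j))
    have hx : e.x * g ^ 3 = κ * d.x := by
      have h1 := hκw (true, j0, j0, j0)
      simp only [wten, if_true] at h1
      rw [hgG j0] at h1
      have h2 : d.G j0 ^ 3 ≠ 0 := pow_ne_zero 3 hj0'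
      apply mul_right_cancel₀ h2
      linear_combination h1
    have hW : e.W * a ^ 3 = κ * d.W := by
      have h1 := hκw (false, i0, i0, i0)
      simp only [wten, Bool.false_eq_true, if_false] at h1
      rw [hav i0] at h1
      have h2 : d.v i0 ^ 3 ≠ 0 := pow_ne_zero 3 hi0'
      apply mul_right_cancel₀ h2
      linear_combination h1
    have hev : e.v = a • d.v := funext hav
    have heG : e.G = g • d.G := funext hgG
    -- the second vector
    have hcr : crossProduct d.v (a • e.v' - g • d.v') = 0 := by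
      have h1 : crossProduct e.v e.v' = g • crossProduct d.v d.v' := heG
      rw [hev] at h1
      rw [map_sub, map_smul, map_smul, ← h1]
      simp
    obtain ⟨s', hs'⟩ := par_of_cross (v_ne_of_ok hd) hcr
    have hev' : e.v' = (g / a) • d.v' + (s' / a) • d.v := by
      ext i
      have := congrFun hs' i
      simp only [Pi.sub_apply, Pi.smul_apply, smul_eq_mul, Pi.add_apply] at this ⊢
      field_simp
      linear_combination this
    refine ⟨a, g / a, κ / (g ^ 2 * a ^ 2), s' / a, ha, div_ne_zero hg ha,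
      div_ne_zero hκ (mul_ne_zero (pow_ne_zero 2 hg) (pow_ne_zero 2 ha)), hev, hev', ?_, ?_⟩
    · field_simp
      linear_combination hx
    · have hdot : (e.y - (κ / (g ^ 2 * a ^ 2) * (g / a)) • d.y) ⬝ᵥ crossProduct d.v d.v' = 0 := by
        rw [sub_dotProduct, smul_dotProduct, smul_eq_mul]
        have h1 : e.W = g * (e.y ⬝ᵥ crossProduct d.v d.v') := by
          unfold Dat.W
          rw [heG, dotProduct_smul, smul_eq_mul]; rfl
        have h2 : d.W = d.y ⬝ᵥ crossProduct d.v d.v' := rfl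
        rw [← h2]
        rw [h1] at hW
        have h3 : e.y ⬝ᵥ crossProduct d.v d.v' = κ * d.W / (g * a ^ 3) := by
          rw [eq_div_iff (mul_ne_zero hg (pow_ne_zero 3 ha))]
          linear_combination hW
        rw [h3]
        field_simp
        ring
      obtain ⟨m, n, hmn⟩ := span_of_dot hd.1 hdot
      refine ⟨m, n, ?_⟩
      rw [add_assoc, ← hmn]
      simp
  · rintro ⟨a, b, c, s, ha, hb, hc, hv, hv', hx, m, n, hy⟩
    have hG : e.G = (a * b) • d.G := by
      unfold Dat.G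
      rw [hv, hv']
      exact cross_smul_smul a b s d.v d.v'
    have hW : e.W = c * a * b ^ 2 * d.W := by
      unfold Dat.W
      rw [hG, hy, dotProduct_smul, add_dotProduct, add_dotProduct, smul_dotProduct, smul_dotProduct,
        smul_dotProduct]
      have h1 : d.v ⬝ᵥ d.G = 0 := dot_cross_left _ _
      have h2 : d.v' ⬝ᵥ d.G = 0 := dot_cross_right _ _
      rw [h1, h2]
      simp only [smul_eq_mul]
      ring
    have hx' : e.x = c * a / b * d.x := by
      field_simp
      linear_combination hx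
    have key := ten_scale d.v d.G d.x d.W a (a * b) (c / (a ^ 2 * b))
    have e1 : c / (a ^ 2 * b) * a ^ 3 * d.x = e.x := by
      rw [hx']; field_simp
    have e2 : c / (a ^ 2 * b) * (a * b) ^ 3 * d.W = e.W := by
      rw [hW]; field_simp
    rw [e1, e2, ← hv, ← hG] at key
    unfold Dat.pt
    rw [seg_eq_ten d, seg_eq_ten e, key, pr_smul]
    exact mul_ne_zero (mul_ne_zero ha (mul_ne_zero ha hb)) (mul_ne_zero (mul_ne_zero
      (div_ne_zero hc (mul_ne_zero (pow_ne_zero 2 ha) hb)) (pow_ne_zero 3 ha))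
      (pow_ne_zero 3 (mul_ne_zero ha hb)))

end Pool.Agent.R235.DS
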