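import Pool.Agent.R235.DS.Bdry

set_option autoImplicit false

open MeasureTheory Filter Topology Set Matrix
open scoped ComplexConjugate ContDiff

namespace Pool.Agent.R235.DS

/-- the fraction of the norm carried by the horizontal part, as a function on `X₂` -/
noncomputable def sfun (P : EE) : ℝ := ∑ I : Idx, if I.2.2.1 then (P (I, I)).re else 0

lemma continuous_sfun : Continuous sfun := by
  unfold sfun
  refine continuous_finsetSum _ fun I _ => ?_
  split_ifs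
  · exact Complex.continuous_re.comp (continuous_apply _)
  · exact continuous_const

lemma pr_diag_re {ι : Type*} [Fintype ι] (H : ι → ℂ) (i : ι) :
    (pr H (i, i)).re = ‖H i‖ ^ 2 / nsq H := by
  unfold pr
  simp only
  rw [Complex.mul_conj, Complex.normSq_eq_norm_sq, ← Complex.ofReal_div, Complex.ofReal_re]

lemma sum_true (v g : Fin 3 → ℂ) (x w : ℂ) :
    (∑ I : Idx, if I.2.2.1 then ‖ten v g x w I‖ ^ 2 else 0) =
      nsq v * (nsq g * (‖x‖ ^ 2 * nsq g ^ 3)) := by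
  have h := nsq_ten v g x 0
  rw [norm_zero] at h
  have e : nsq v * (nsq g * (‖x‖ ^ 2 * nsq g ^ 3)) = nsq (ten v g x 0) := by
    rw [h]; ring
  rw [e]
  unfold nsq
  refine Finset.sum_congr rfl fun I _ => ?_
  unfold ten
  by_cases hb : I.2.2.1 = true
  · simp only [hb, if_true]
  · simp only [hb, if_false]; simp

lemma sfun_pr (H : Idx → ℂ) :
    sfun (pr H) = (∑ I : Idx, if I.2.2.1 then ‖H I‖ ^ 2 else 0) / nsq H := by
  unfold sfun
  rw [Finset.sum_div]
  refine Finset.sum_congr rfl fun I _ => ?_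
  split_ifs
  · exact pr_diag_re H I
  · simp

lemma v_ne_of_ok {d : Dat} (hd : d.ok) : d.v ≠ 0 := by
  intro h
  apply hd.1
  unfold Dat.G
  rw [h]; simp

lemma sfun_pt {d : Dat} (hd : d.ok) :
    sfun d.pt = ‖d.x‖ ^ 2 * nsq d.G ^ 3 / (‖d.x‖ ^ 2 * nsq d.G ^ 3 + ‖d.W‖ ^ 2 * nsq d.v ^ 3) := by
  unfold Dat.pt
  rw [sfun_pr, seg_eq_ten, sum_true, nsq_ten]
  have h1 : 0 < nsq d.v := nsq_pos (v_ne_of_ok hd)
  have h2 : 0 < nsq d.G := nsq_pos hd.1
  rw [mul_div_mul_left _ _ h1.ne', mul_div_mul_left _ _ h2.ne']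

lemma den_pos_of_ok {d : Dat} (hd : d.ok) :
    0 < ‖d.x‖ ^ 2 * nsq d.G ^ 3 + ‖d.W‖ ^ 2 * nsq d.v ^ 3 := by
  have h1 : 0 < nsq d.v := nsq_pos (v_ne_of_ok hd)
  have h2 : 0 < nsq d.G := nsq_pos hd.1
  rcases hd.2 with h | h
  · have := norm_pos_iff.mpr h
    positivity
  · have := norm_pos_iff.mpr h
    positivity

lemma sfun_fTwo (z : ℂ) : sfun (fTwo z) = sc z := by
  unfold fTwo
  rw [sfun_pt (lift_ok z), G_lift, W_lift]
  have hx : (lift2 Fcurve z).x = 1 := rfl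
  have hv : (lift2 Fcurve z).v = Fcurve z := rfl
  rw [hx, hv, norm_one, one_pow, one_mul]
  unfold sc
  rw [nsq_w]

lemma sfun_nonneg_of_mem {P : EE} (hP : P ∈ X2) : 0 ≤ sfun P := by
  obtain ⟨d, hd, rfl⟩ := hP
  rw [sfun_pt hd]
  have h1 := nsq_nonneg d.G
  have h2 := nsq_nonneg d.v
  positivity

lemma D2_eq : D2 = X2 ∩ {P | sfun P = 0} := by
  ext P
  constructor
  · rintro ⟨d, hd, hx, rfl⟩
    refine ⟨⟨d, hd, rfl⟩, ?_⟩
    rw [mem_setOf_eq, sfun_pt hd, hx]; simp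
  · rintro ⟨⟨d, hd, rfl⟩, h⟩
    refine ⟨d, hd, ?_, rfl⟩
    rw [mem_setOf_eq, sfun_pt hd, div_eq_zero_iff] at h
    rcases h with h | h
    · have h2 : 0 < nsq d.G := nsq_pos hd.1
      rcases mul_eq_zero.mp h with h3 | h3
      · exact norm_eq_zero.mp (by simpa using h3)
      · exact absurd h3 (by positivity)
    · exact absurd h (den_pos_of_ok hd).ne'

lemma isClosed_D2 : IsClosed D2 := by
  rw [D2_eq]
  exact isCompact_X2.isClosed.inter (isClosed_eq continuous_sfun continuous_const)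

/-- cutoff function near `D₂` -/
noncomputable def cutD (δ : ℝ) (P : EE) : ℝ := max 0 (min 1 (2 - sfun P / δ))

lemma continuous_cutD (δ : ℝ) : Continuous (cutD δ) := by
  unfold cutD
  exact continuous_const.max (continuous_const.min (continuous_const.sub
    (continuous_sfun.div_const δ)))

lemma cutD_nonneg (δ : ℝ) (P : EE) : 0 ≤ cutD δ P := le_max_left _ _
lemma cutD_le_one (δ : ℝ) (P : EE) : cutD δ P ≤ 1 := max_le zero_le_one (min_le_left _ _)

lemma cutD_eq_one {δ : ℝ} (hδ : 0 < δ) {P : EE} (h : sfun P ≤ δ) : cutD δ P = 1 := by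
  unfold cutD
  have h1 : sfun P / δ ≤ 1 := (div_le_one hδ).mpr h
  rw [min_eq_left (by linarith), max_eq_right zero_le_one]

lemma cutD_eq_zero {δ : ℝ} (hδ : 0 < δ) {P : EE} (h : 2 * δ < sfun P) : cutD δ P = 0 := by
  unfold cutD
  have h1 : 2 < sfun P / δ := by rwa [lt_div_iff₀ hδ]
  exact max_eq_left ((min_le_right _ _).trans (by linarith))

/-- the mass near `D₂` is bounded below -/
lemma nev_cut_lower {δ : ℝ} (hδ : 0 < δ) : ∃ R : ℝ, 4 ≤ R ∧ ∀ r : ℝ, 4 * R ≤ r →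
    (r - 4 * R) / 2048 ≤ nev fTwo (fun P A B => cutD δ P * fs P A B) r := by
  obtain ⟨R, hR⟩ := exists_gt (max 4 (2048 / δ))
  have h4 : 4 ≤ R := (le_max_left _ _).trans hR.le
  have h5 : 2048 / δ ≤ R := (le_max_right _ _).trans hR.le
  refine ⟨R, h4, fun r hr => ?_⟩
  rw [nev_mul_fs]
  refine nev_lower (k := fun z => cutD δ (fTwo z)) ((continuous_cutD δ).comp continuous_fTwo)
    (fun z => cutD_nonneg _ _) (B := 1) (fun z => ?_) h4 (fun T z hz => ?_) hr
  · rw [abs_of_nonneg (cutD_nonneg _ _)]; exact cutD_le_one _ _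
  · rw [cutD_eq_one hδ]
    rw [sfun_fTwo]
    refine (sc_reg h4 hz).trans ?_
    rw [div_le_iff₀ hδ] at h5
    rw [div_le_iff₀ (by positivity)]
    have h6 : R ≤ R ^ 4 := by
      have : (1:ℝ) ≤ R := by linarith
      calc R = R ^ 1 := (pow_one R).symm
        _ ≤ R ^ 4 := pow_le_pow_right₀ this (by norm_num)
    calc 2048 ≤ R * δ := h5
      _ ≤ R ^ 4 * δ := by gcongr
      _ = δ * R ^ 4 := by ring

end Pool.Agent.R235.DS
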