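import Pool.Agent.R235.DS.Curve2

set_option autoImplicit false

open MeasureTheory Filter Topology Set
open scoped ComplexConjugate ContDiff

namespace Pool.Agent.R235.DS

lemma reg_eq (R T : ℝ) : Reg R T = (fun z : ℂ => (z.im, z.re)) ⁻¹'
    (regionBetween (fun y => -Real.log y - 1/4) (fun y => -Real.log y + 1/4) (Icc R T)) := by
  ext z
  simp only [Reg, regionBetween, mem_preimage, mem_setOf_eq, mem_Icc, mem_Ioo]
  constructor
  · rintro ⟨a, b, c, d⟩; exact ⟨⟨a, b⟩, c, d⟩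
  · rintro ⟨⟨a, b⟩, c, d⟩; exact ⟨a, b, c, d⟩

lemma measurePreserving_im_re :
    MeasurePreserving (fun z : ℂ => (z.im, z.re)) volume (volume.prod volume) := by
  have h1 := Complex.volume_preserving_equiv_real_prod
  have h2 : MeasurePreserving (Prod.swap : ℝ × ℝ → ℝ × ℝ) (volume.prod volume) (volume.prod volume) :=
    Measure.measurePreserving_swap
  exact h2.comp h1

lemma measurable_reg_pair {R T : ℝ} : MeasurableSet
    (regionBetween (fun y => -Real.log y - 1/4) (fun y => -Real.log y + 1/4) (Icc R T)) :=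
  measurableSet_regionBetween (by fun_prop) (by fun_prop) measurableSet_Icc

lemma measurableSet_reg (R T : ℝ) : MeasurableSet (Reg R T) := by
  rw [reg_eq]
  exact measurePreserving_im_re.measurable measurable_reg_pair

lemma volume_reg {R T : ℝ} (hR : 4 ≤ R) (hT : R ≤ T) :
    (volume (Reg R T)).toReal = (T - R) / 2 := by
  rw [reg_eq, measurePreserving_im_re.measure_preimage measurable_reg_pair.nullMeasurableSet]
  have hcont : ContinuousOn (fun y : ℝ => -Real.log y) (Icc R T) := by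
    apply ContinuousOn.neg
    apply ContinuousOn.log continuousOn_id
    intro y hy
    have : 4 ≤ y := hR.trans hy.1
    change y ≠ 0
    linarith
  rw [volume_regionBetween_eq_integral]
  · have e : ∫ y in Icc R T, ((fun y => -Real.log y + 1/4) - fun y => -Real.log y - 1/4) y =
      (T - R) / 2 := by
      have : ∀ y : ℝ, ((fun y => -Real.log y + 1/4) - fun y => -Real.log y - 1/4) y = 1/2 := by
        intro y; simp only [Pi.sub_apply]; ring
      simp only [this]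
      rw [setIntegral_const, Real.volume_real_Icc_of_le hT]
      simp; ring
    rw [e, ENNReal.toReal_ofReal (by linarith)]
  · exact (hcont.sub continuousOn_const).integrableOn_Icc
  · exact (hcont.add continuousOn_const).integrableOn_Icc
  · exact measurableSet_Icc
  · intro y _; linarith

lemma reg_subset_ball {R t : ℝ} (hR : 4 ≤ R) : Reg R (t / 2) ⊆ Metric.ball 0 t := by
  intro z hz
  have h := reg_bounds hR hz
  rw [mem_ball_zero_iff]
  have h1 := hz.1
  have h2 := hz.2.1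
  linarith [h.2.1]

lemma nsq_G_reg {R T : ℝ} (hR : 4 ≤ R) {z : ℂ} (hz : z ∈ Reg R T) : nsq (Gc z) ≤ 8 := by
  obtain ⟨h1, h2, h3, h4⟩ := reg_bounds hR hz
  have hz4 : 4 ≤ ‖z‖ := (hR.trans hz.1).trans h1
  have he := norm_nonneg (Complex.exp z)
  rw [nsq_G]
  have h5 : ‖z - 1‖ ≤ 5/4 * ‖z‖ := by
    have := norm_sub_le z 1
    rw [norm_one] at this; linarith
  have h6 : ‖z - 1‖ * ‖Complex.exp z‖ ≤ 5/2 := by nlinarith [norm_nonneg (z - 1)]
  have h7 : ‖Complex.exp z‖ ≤ 1/2 := by nlinarith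
  have h8 : ‖z - 1‖ ^ 2 * ‖Complex.exp z‖ ^ 2 ≤ (5/2) ^ 2 := by
    rw [← mul_pow]
    have := mul_nonneg (norm_nonneg (z - 1)) he
    gcongr
  nlinarith

lemma den_reg {R T : ℝ} (hR : 4 ≤ R) {z : ℂ} (hz : z ∈ Reg R T) : 1/256 ≤ den seg z := by
  refine le_trans ?_ ((den_G_ge z).trans (den_seg_ge z))
  have h1 := nsq_G_reg hR hz
  have h2 := one_le_nsq_G z
  obtain ⟨_, _, h3, _⟩ := reg_bounds hR hz
  rw [div_le_div_iff₀ (by norm_num) (by positivity)]
  have h4 : (1/2:ℝ) ^ 2 ≤ (‖z‖ * ‖Complex.exp z‖) ^ 2 := by gcongr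
  have h5 : nsq (Gc z) ^ 2 ≤ 8 ^ 2 := by gcongr
  nlinarith

/-- the fraction of the norm carried by the horizontal part -/
noncomputable def sc (z : ℂ) : ℝ := nsq (Gc z) ^ 3 / nsq (wc z)

lemma sc_reg {R T : ℝ} (hR : 4 ≤ R) {z : ℂ} (hz : z ∈ Reg R T) : sc z ≤ 2048 / R ^ 4 := by
  have h1 := nsq_G_reg hR hz
  have h1' := nsq_nonneg (Gc z)
  obtain ⟨h2, _, h3, _⟩ := reg_bounds hR hz
  have hRz : R ≤ ‖z‖ := hz.1.trans h2
  have hz4 : 4 ≤ ‖z‖ := hR.trans hRz
  have hw : ‖z‖ ^ 4 / 4 ≤ nsq (wc z) := by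
    rw [nsq_w]
    have h4 : ‖z‖ ^ 2 ≤ nsq (Fcurve z) := by
      rw [nsq_F]; nlinarith [sq_nonneg ‖Complex.exp z‖]
    have h5 : (‖z‖ ^ 2) ^ 3 ≤ nsq (Fcurve z) ^ 3 := by gcongr
    have h6 : 0 ≤ nsq (Gc z) ^ 3 := by positivity
    have h7 : ‖Complex.exp z‖ ^ 2 * (‖z‖ ^ 2) ^ 3 ≤ ‖Complex.exp z‖ ^ 2 * nsq (Fcurve z) ^ 3 := by
      gcongr
    have h8 : ‖Complex.exp z‖ ^ 2 * (‖z‖ ^ 2) ^ 3 = (‖z‖ * ‖Complex.exp z‖) ^ 2 * ‖z‖ ^ 4 := by ring
    have h9 : (1/2:ℝ) ^ 2 * ‖z‖ ^ 4 ≤ (‖z‖ * ‖Complex.exp z‖) ^ 2 * ‖z‖ ^ 4 := by gcongr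
    linarith
  have hwpos : 0 < nsq (wc z) := nsq_pos (w_ne z)
  unfold sc
  have hR0 : 0 < R := by linarith
  rw [div_le_div_iff₀ hwpos (by positivity)]
  have h10 : nsq (Gc z) ^ 3 ≤ 8 ^ 3 := by gcongr
  have h11 : R ^ 4 ≤ ‖z‖ ^ 4 := by gcongr
  calc nsq (Gc z) ^ 3 * R ^ 4 ≤ 8 ^ 3 * ‖z‖ ^ 4 := by gcongr
    _ = 2048 * (‖z‖ ^ 4 / 4) := by ring
    _ ≤ 2048 * nsq (wc z) := by gcongr

/-- lower bound of the area near `D₂` -/
theorem area_lower {k : ℂ → ℝ} (hk : Continuous k) (hk0 : ∀ z, 0 ≤ k z) {R : ℝ} (hR : 4 ≤ R)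
    (hk1 : ∀ T, ∀ z ∈ Reg R T, 1 ≤ k z) {t : ℝ} (ht : 2 * R ≤ t) :
    (t / 2 - R) / 512 ≤ ∫ z in Metric.ball 0 t, k z * den seg z := by
  have hcont : Continuous fun z => k z * den seg z := hk.mul (continuous_den diff_seg seg_ne)
  have hint : IntegrableOn (fun z => k z * den seg z) (Metric.ball 0 t) :=
    (hcont.continuousOn.integrableOn_compact (isCompact_closedBall (0:ℂ) t)).mono_set
      Metric.ball_subset_closedBall
  have h1 : ∫ z in Reg R (t / 2), k z * den seg z ≤ ∫ z in Metric.ball 0 t, k z * den seg z := by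
    apply setIntegral_mono_set hint
    · exact Eventually.of_forall fun z => mul_nonneg (hk0 z) (den_nonneg _ _)
    · exact (reg_subset_ball hR).eventuallyLE
  refine le_trans ?_ h1
  have hfin : volume (Reg R (t / 2)) < ⊤ :=
    lt_of_le_of_lt (measure_mono (reg_subset_ball hR)) measure_ball_lt_top
  have h2 : ∫ z in Reg R (t / 2), (1/256 : ℝ) ≤ ∫ z in Reg R (t / 2), k z * den seg z := by
    apply setIntegral_mono_on (integrableOn_const hfin.ne) (hint.mono_set (reg_subset_ball hR))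
      (measurableSet_reg _ _)
    intro z hz
    have h3 := hk1 _ z hz
    have h4 := den_reg hR hz
    nlinarith
  refine le_trans ?_ h2
  rw [setIntegral_const, smul_eq_mul]
  have h5 : (volume : Measure ℂ).real (Reg R (t / 2)) = (t / 2 - R) / 2 := volume_reg hR (by linarith)
  rw [h5]
  linarith

end Pool.Agent.R235.DS
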