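import Pool.Agent.R235.DS.Sfun

set_option autoImplicit false

open MeasureTheory Filter Topology Set Matrix
open scoped ComplexConjugate ContDiff

namespace Pool.Agent.R235.DS

instance : CompactSpace ↥ZZ := isCompact_iff_compactSpace.mp isCompact_ZZ

theorem borelZZ : BorelSpace ↥ZZ := by
  have := borelTriple
  exact Subtype.borelSpace ZZ

attribute [local instance] borelZZ

theorem pmMetr : TopologicalSpace.MetrizableSpace (ProbabilityMeasure ↥ZZ) :=
  MeasureTheory.instMetrizableSpaceProbabilityMeasure ↥ZZ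

/-- the normalized 2-vector of the curve -/
noncomputable def phi0 (z : ℂ) : EE × EE × EE := (fTwo z, ux z, uy z)

/-- the normalized 2-vector of the curve -/
noncomputable def phi (p : ℝ × ℂ) : ↥ZZ := ⟨phi0 p.2, phi_mem p.2⟩

lemma measurable_phi' : Measurable phi :=
  (measurable_phi.comp measurable_snd).subtype_mk

lemma nev_pos {r : ℝ} (hr : 17 ≤ r) : 0 < nev fTwo fs r := by
  have := nev_fs_ge (r := r) (by linarith)
  have : 0 < (r - 16) / 2048 := by linarith
  linarith

lemma kap_univ_ne {r : ℝ} (hr : 17 ≤ r) : (kap aa r) univ ≠ 0 := by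
  have h := nev_pos hr
  rw [nev_fs_kap (by linarith)] at h
  intro h0
  rw [h0] at h
  simp at h

lemma kap_univ_ne_top (r : ℝ) : (kap aa r) univ ≠ ⊤ := by
  have := kap_finite continuous_aa aa_nonneg r
  exact measure_ne_top _ _

/-- the normalized measures representing `T_r` -/
noncomputable def tauM (r : ℝ) : Measure ↥ZZ := ((kap aa r) univ)⁻¹ • (kap aa r).map phi

lemma tauM_prob {r : ℝ} (hr : 17 ≤ r) : IsProbabilityMeasure (tauM r) := by
  constructor
  unfold tauM
  rw [Measure.smul_apply, Measure.map_apply measurable_phi' MeasurableSet.univ, preimage_univ,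
    smul_eq_mul]
  exact ENNReal.inv_mul_cancel (kap_univ_ne hr) (kap_univ_ne_top r)

/-- integrals against `tauM` -/
lemma integral_tauM {g : EE × EE × EE → ℝ} (hg : Continuous g) {r : ℝ} (hr : 17 ≤ r) :
    ∫ q : ↥ZZ, g q.1 ∂(tauM r) =
      (∫ t in (0:ℝ)..r, (∫ z in Metric.ball 0 t, g (phi0 z) * aa z) / t) / nev fTwo fs r := by
  have hb := borelTriple
  obtain ⟨B, hB⟩ := isCompact_ZZ.exists_bound_of_continuousOn hg.continuousOn
  have hm : Measurable fun q : ↥ZZ => g q.1 := hg.measurable.comp measurable_subtype_coe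
  have hm2 : Measurable fun z : ℂ => g (phi0 z) := hg.measurable.comp measurable_phi
  have h1 := (integral_kap (φ := fun z => g (phi0 z)) continuous_aa aa_nonneg
    hm2 (B := B) (fun z => hB _ (phi_mem z)) (r := r) (by linarith)).2
  rw [← h1]
  unfold tauM
  rw [integral_smul_measure, integral_map measurable_phi'.aemeasurable hm.aestronglyMeasurable,
    nev_fs_kap (by linarith), ENNReal.toReal_inv, smul_eq_mul, div_eq_inv_mul]
  simp only [phi]

/-- pairing of a form with the measures -/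
lemma tauM_form {α : EE → EE → EE → ℝ} (h : IsForm2 α) {r : ℝ} (hr : 17 ≤ r) :
    ∫ q : ↥ZZ, α q.1.1 q.1.2.1 q.1.2.2 ∂(tauM r) = nev fTwo α r / nev fTwo fs r := by
  rw [integral_tauM (g := fun p => α p.1 p.2.1 p.2.2) h.continuous hr]
  congr 1
  unfold nev area
  have e : ∀ z, α (fTwo z) (fderiv ℝ fTwo z 1) (fderiv ℝ fTwo z Complex.I) =
    α (fTwo z) (ux z) (uy z) * aa z := form_gamma h
  simp only [e, phi0]

lemma one_ae (z : ℂ) {w : ℝ} (h : w * aa z = aa z) : |w - 1| * aa z = 0 := by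
  by_cases h0 : aa z = 0
  · rw [h0, mul_zero]
  · have : w = 1 := by
      have h4 : (w - 1) * aa z = 0 := by rw [sub_mul, h]; ring
      rcases mul_eq_zero.mp h4 with h5 | h5
      · linarith
      · exact absurd h5 h0
    rw [this]; simp

/-- The Kähler form is one on the normalized 2-vectors almost everywhere. -/
lemma tauM_one {r : ℝ} (hr : 17 ≤ r) :
    ∫ q : ↥ZZ, |fs q.1.1 q.1.2.1 q.1.2.2 - 1| ∂(tauM r) = 0 := by
  have hc : Continuous fun p : EE × EE × EE => |fs p.1 p.2.1 p.2.2 - 1| :=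
    (isForm2_fs.continuous.sub continuous_const).abs
  rw [integral_tauM (g := fun p => |fs p.1 p.2.1 p.2.2 - 1|) hc hr]
  have e : ∀ z, |fs (phi0 z).1 (phi0 z).2.1 (phi0 z).2.2 - 1| * aa z = 0 := by
    intro z
    apply one_ae
    have h3 := form_gamma isForm2_fs z
    rw [fs_gamma] at h3
    exact h3.symm
  simp only [e]; simp

/-- Extraction of a weakly convergent subsequence. -/
lemma extract (r : ℕ → ℝ) (hr : ∀ j, 17 ≤ r j) : ∃ (φ : ℕ → ℕ) (τ : Measure ↥ZZ),
    StrictMono φ ∧ IsProbabilityMeasure τ ∧ ∀ g : ↥ZZ → ℝ, Continuous g →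
      Tendsto (fun j => ∫ q, g q ∂(tauM (r (φ j)))) atTop (𝓝 (∫ q, g q ∂τ)) := by
  have hb := borelZZ
  have hm := pmMetr
  let ν : ℕ → ProbabilityMeasure ↥ZZ := fun j => ⟨tauM (r j), tauM_prob (hr j)⟩
  obtain ⟨τ, φ, hφ, hlim⟩ := CompactSpace.tendsto_subseq ν
  refine ⟨φ, τ, hφ, inferInstance, fun g hg => ?_⟩
  have h := (ProbabilityMeasure.tendsto_iff_forall_integral_tendsto.mp hlim)
    (BoundedContinuousFunction.mkOfCompact ⟨g, hg⟩)
  exact h

end Pool.Agent.R235.DS
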